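import Mathlib
import Pool.Agent.H266R3.LDef

set_option autoImplicit false

/-!
Definitions: `ℝ`-trees, and the conditions on subsets of the Lipschitz-free space of an `ℝ`-tree.
-/

namespace Q99.RT

open Pool.Agent.H266R3.LF

/-- `A` is an arc joining `x` to `y`: the image of a one-to-one continuous map of `[0, 1]` which
sends `0` to `x` and `1` to `y`. -/
def IsArc {T : Type} [MetricSpace T] (A : Set T) (x y : T) : Prop :=
  ∃ c : unitInterval → T, Continuous c ∧ Function.Injective c ∧ c 0 = x ∧ c 1 = y ∧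
    Set.range c = A

/-- `ℝ`-trees: any two distinct points `x, y` are joined by exactly one arc, and this arc is
isometric to `[0, d(x, y)]` by an isometry sending `0` to `x` and `d(x, y)` to `y`. -/
def IsRTree (T : Type) [MetricSpace T] : Prop :=
  ∀ x y : T, x ≠ y → ∃ A : Set T, IsArc A x y ∧ (∀ B : Set T, IsArc B x y → B = A) ∧
    ∃ g : ℝ → T, g 0 = x ∧ g (dist x y) = y ∧ g '' Set.Icc 0 (dist x y) = A ∧
      ∀ s ∈ Set.Icc 0 (dist x y), ∀ t ∈ Set.Icc 0 (dist x y), dist (g s) (g t) = |s - t|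

section

variable {T : Type} [MetricSpace T] {o : T}

/-- The evaluation functional at `x`, as a member of the Lipschitz-free space. -/
noncomputable def dl (o x : T) : FreeSp T o := ⟨dlt T o x, dlt_mem x⟩

/-- The molecule of `x` and `y`. -/
noncomputable def mol (o x y : T) : FreeSp T o := (dist x y)⁻¹ • (dl o x - dl o y)

/-- The free space of a subset `A` of `T` inside the free space of `T`: the closed linear span of
the evaluation functionals at the points of `A`. -/
noncomputable def freeOn (o : T) (A : Set T) : Submodule ℝ (FreeSp T o) :=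
  (Submodule.span ℝ (dl o '' A)).topologicalClosure

/-- Condition (a): for every `ε > 0` there is `δ > 0` such that for every convex sum of molecules
`γ = ∑ aᵢ m(xᵢ, yᵢ)` and every set `I` of indices with `∑_{i ∈ I} d(xᵢ, yᵢ) < δ` one has
`∑_{i ∈ I} |aᵢ| ≤ ε + dist(γ, W)`. -/
def CondA (W : Set (FreeSp T o)) : Prop :=
  ∀ ε : ℝ, 0 < ε → ∃ δ : ℝ, 0 < δ ∧ ∀ (n : ℕ) (a : Fin n → ℝ) (x y : Fin n → T),
    (∀ i, x i ≠ y i) → ‖∑ i, a i • mol o (x i) (y i)‖ = ∑ i, |a i| →
    ∀ I : Finset (Fin n), ∑ i ∈ I, dist (x i) (y i) < δ →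
      ∑ i ∈ I, |a i| ≤ ε + Metric.infDist (∑ i, a i • mol o (x i) (y i)) W

/-- Uniform regularity: for every open `U` and `ε > 0` there is a compact `K ⊆ U` such that
`W ⊆ F(K ∪ Uᶜ) + ε B`. -/
def UniformlyRegular (W : Set (FreeSp T o)) : Prop :=
  ∀ U : Set T, IsOpen U → ∀ ε : ℝ, 0 < ε → ∃ K : Set T, IsCompact K ∧ K ⊆ U ∧
    ∀ w ∈ W, ∃ v ∈ freeOn o (K ∪ Uᶜ), ‖w - v‖ ≤ ε

/-- Relative weak compactness. -/
def RelWeaklyCompact (W : Set (FreeSp T o)) : Prop :=
  IsCompact (closure (toWeakSpace ℝ (FreeSp T o) '' W))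

end

end Q99.RT
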