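import Mathlib
import Pool.Agent.Q99.RT.Defs

set_option autoImplicit false

/-!
A geodesic space satisfying the four-point condition is an `ℝ`-tree.
-/

namespace Q99.RT

open Set Topology

variable {T : Type} [MetricSpace T]

/-- The four-point condition. -/
def FourPt (T : Type) [MetricSpace T] : Prop :=
  ∀ x y z w : T, dist x y + dist z w ≤ max (dist x z + dist y w) (dist x w + dist y z)

/-- Position of `w` along the segment from `x` to `y`. -/
noncomputable def pos (x y w : T) : ℝ := (dist x w - dist y w + dist x y) / 2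

lemma pos_continuous (x y : T) : Continuous (pos x y) := by
  unfold pos
  fun_prop

lemma pos_left (x y : T) : pos x y x = 0 := by
  unfold pos
  rw [dist_self, dist_comm y x]; ring

lemma pos_right (x y : T) : pos x y y = dist x y := by
  unfold pos
  rw [dist_self]; ring

/-- `pos` is locally constant off the segment. -/
lemma pos_locally_constant (h4 : FourPt T) (x y w w' : T)
    (h : 2 * dist w w' < dist x w + dist y w - dist x y) : pos x y w' = pos x y w := by
  have h1 := h4 x w y w'
  have h2 := h4 x w' y w
  have t1 := dist_triangle y w' w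
  have t2 := dist_triangle x w' w
  have e1 : dist w' w = dist w w' := dist_comm _ _
  have e2 : dist w' y = dist y w' := dist_comm _ _
  have e3 : dist w y = dist y w := dist_comm _ _
  rw [e2, e1] at h2
  rw [e3] at h1
  have h3 : dist x w + dist y w' ≤ dist x w' + dist y w := by
    rcases le_max_iff.1 h1 with h5 | h5 <;> linarith
  have h4' : dist x w' + dist y w ≤ dist x w + dist y w' := by
    rcases le_max_iff.1 h2 with h5 | h5 <;> linarith
  unfold pos
  linarith

/-- A geodesic space satisfying the four-point condition is an `ℝ`-tree. -/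
theorem isRTree_of (h4 : FourPt T)
    (hg : ∀ x y : T, ∃ g : ℝ → T, g 0 = x ∧ g (dist x y) = y ∧
      ∀ s ∈ Icc 0 (dist x y), ∀ t ∈ Icc 0 (dist x y), dist (g s) (g t) = |s - t|) :
    IsRTree T := by
  intro x y hxy
  obtain ⟨g, g0, g1, gi⟩ := hg x y
  set D := dist x y with hD
  have hD0 : 0 < D := dist_pos.2 hxy
  have h0mem : (0 : ℝ) ∈ Icc 0 D := ⟨le_rfl, hD0.le⟩
  have hDmem : D ∈ Icc 0 D := ⟨hD0.le, le_rfl⟩
  have hgc : ContinuousOn g (Icc 0 D) := by
    refine LipschitzOnWith.continuousOn (K := 1) (LipschitzOnWith.of_dist_le_mul ?_)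
    intro s hs t ht
    rw [gi s hs t ht, NNReal.coe_one, one_mul, Real.dist_eq]
  have hposg : ∀ s ∈ Icc 0 D, pos x y (g s) = s := by
    intro s hs
    have e1 : dist x (g s) = s := by
      rw [← g0, gi 0 h0mem s hs, zero_sub, abs_neg, abs_of_nonneg hs.1]
    have e2 : dist y (g s) = D - s := by
      rw [← g1, gi D hDmem s hs, abs_of_nonneg (by linarith [hs.2])]
    unfold pos
    rw [e1, e2, ← hD]; ring
  have hmemA : ∀ w : T, dist x w + dist y w = D → w ∈ g '' Icc 0 D := by
    intro w hw
    have hs : dist x w ∈ Icc 0 D := ⟨dist_nonneg, by linarith [dist_nonneg (x := y) (y := w)]⟩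
    refine ⟨dist x w, hs, ?_⟩
    have e1 := gi 0 h0mem _ hs
    rw [g0, zero_sub, abs_neg, abs_of_nonneg hs.1] at e1
    have e2 := gi D hDmem _ hs
    rw [g1, abs_of_nonneg (by linarith [hs.2])] at e2
    have h := h4 x y w (g (dist x w))
    rw [e1, e2] at h
    have h5 : dist w (g (dist x w)) ≤ 0 := by
      rcases le_max_iff.1 h with h5 | h5 <;> linarith
    exact (dist_le_zero.1 h5).symm
  refine ⟨g '' Icc 0 D, ?_, ?_, g, g0, g1, rfl, gi⟩
  · -- the segment is an arc
    have hin : ∀ s : unitInterval, (s : ℝ) * D ∈ Icc 0 D := fun s =>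
      ⟨mul_nonneg s.2.1 hD0.le, mul_le_of_le_one_left hD0.le s.2.2⟩
    refine ⟨fun s => g (s * D), ?_, ?_, by simp [g0], by simp [g1], ?_⟩
    · exact hgc.comp_continuous (by fun_prop) hin
    · intro s t hst
      have h1 := gi _ (hin s) _ (hin t)
      have h2 : dist (g (s * D)) (g (t * D)) = 0 := by rw [dist_eq_zero]; exact hst
      rw [h2] at h1
      have h3 : (s : ℝ) * D - t * D = 0 := by
        rw [eq_comm, abs_eq_zero] at h1
        exact h1
      have h4 : ((s : ℝ) - t) * D = 0 := by rw [sub_mul]; exact h3
      rcases mul_eq_zero.1 h4 with h5 | h5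
      · exact Subtype.ext (by linarith)
      · exact absurd h5 hD0.ne'
    · ext z
      constructor
      · rintro ⟨s, rfl⟩
        exact ⟨_, hin s, rfl⟩
      · rintro ⟨r, hr, rfl⟩
        refine ⟨⟨r / D, div_nonneg hr.1 hD0.le, (div_le_one hD0).2 hr.2⟩, ?_⟩
        change g (r / D * D) = g r
        rw [div_mul_cancel₀ _ hD0.ne']
  · -- uniqueness
    rintro B ⟨c, hc, hcinj, hc0, hc1, rfl⟩
    have hAB : g '' Icc 0 D ⊆ range c := by
      rintro _ ⟨r, hr, rfl⟩
      by_contra hnot
      have hfc : Continuous fun t => pos x y (c t) := (pos_continuous x y).comp hc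
      have hnotA : ∀ t, pos x y (c t) = r → c t ∉ g '' Icc 0 D := by
        rintro t ht ⟨s, hs, hst⟩
        rw [← hst, hposg s hs] at ht
        rw [ht] at hst
        exact hnot ⟨t, hst.symm⟩
      have hopen : IsOpen {t : unitInterval | pos x y (c t) = r} := by
        rw [isOpen_iff_mem_nhds]
        intro t ht
        have h1 : D < dist x (c t) + dist y (c t) := by
          refine lt_of_le_of_ne ?_ fun h => hnotA t ht (hmemA _ h.symm)
          rw [hD, dist_comm y (c t)]
          exact dist_triangle _ _ _
        set ρ := (dist x (c t) + dist y (c t) - D) / 2 with hρ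
        have hρ0 : 0 < ρ := by rw [hρ]; linarith
        have h2 : {t' : unitInterval | dist (c t) (c t') < ρ} ∈ 𝓝 t := by
          have h3 : Continuous fun t' => dist (c t) (c t') := by fun_prop
          exact (isOpen_lt h3 continuous_const).mem_nhds (by simpa using hρ0)
        filter_upwards [h2] with t' ht'
        have h4' := pos_locally_constant h4 x y (c t) (c t') (by
          rw [hρ] at ht'; linarith [show dist (c t) (c t') < _ from ht'])
        change pos x y (c t') = r
        rw [h4']
        exact ht
      have hclosed : IsClosed {t : unitInterval | pos x y (c t) = r} :=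
        isClosed_eq hfc continuous_const
      have hne : {t : unitInterval | pos x y (c t) = r}.Nonempty := by
        have h1 : Icc (pos x y (c 0)) (pos x y (c 1)) ⊆ (fun t => pos x y (c t)) '' univ :=
          isPreconnected_univ.intermediate_value (mem_univ _) (mem_univ _) hfc.continuousOn
        rw [hc0, hc1, pos_left, pos_right] at h1
        obtain ⟨t, _, ht⟩ := h1 hr
        exact ⟨t, ht⟩
      have huniv := IsClopen.eq_univ ⟨hclosed, hopen⟩ hne
      have e0 : pos x y (c 0) = r := by
        have : (0 : unitInterval) ∈ {t : unitInterval | pos x y (c t) = r} := by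
          rw [huniv]; trivial
        exact this
      have e1 : pos x y (c 1) = r := by
        have : (1 : unitInterval) ∈ {t : unitInterval | pos x y (c t) = r} := by
          rw [huniv]; trivial
        exact this
      rw [hc0, pos_left] at e0
      rw [hc1, pos_right] at e1
      rw [← e0] at e1
      exact hD0.ne' e1
    refine Subset.antisymm ?_ hAB
    have hconn : IsPreconnected (g '' Icc 0 D) := isPreconnected_Icc.image g hgc
    have hS : IsPreconnected (c ⁻¹' (g '' Icc 0 D)) :=
      hconn.preimage_of_isClosedMap hcinj (hc.isClosedMap) hAB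
    have h0S : (0 : unitInterval) ∈ c ⁻¹' (g '' Icc 0 D) := by
      rw [mem_preimage, hc0]; exact ⟨0, h0mem, g0⟩
    have h1S : (1 : unitInterval) ∈ c ⁻¹' (g '' Icc 0 D) := by
      rw [mem_preimage, hc1]; exact ⟨D, hDmem, g1⟩
    rintro _ ⟨t, rfl⟩
    exact hS.Icc_subset h0S h1S ⟨unitInterval.nonneg t, unitInterval.le_one t⟩

end Q99.RT
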