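import Mathlib
import Pool.Agent.Q99.RT.Tree

set_option autoImplicit false

/-!
The completed dyadic tree.
-/

namespace Q99.RT

open Set Topology

/-- The Cantor space. -/
abbrev Cz : Type := ℕ → Bool

/-- The dyadic ultrametric. -/
noncomputable def rho (ξ η : Cz) : ℝ :=
  (PiNat.dist (E := fun _ => Bool)).dist ξ η

lemma rho_self (ξ : Cz) : rho ξ ξ = 0 := PiNat.dist_self ξ
lemma rho_comm (ξ η : Cz) : rho ξ η = rho η ξ := PiNat.dist_comm ξ η
lemma rho_nonneg (ξ η : Cz) : 0 ≤ rho ξ η := PiNat.dist_nonneg ξ η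
lemma rho_le_one (ξ η : Cz) : rho ξ η ≤ 1 := PiNat.dist_le_one ξ η
lemma rho_nonarch (ξ η ζ : Cz) : rho ξ ζ ≤ max (rho ξ η) (rho η ζ) :=
  PiNat.dist_triangle_nonarch ξ η ζ

lemma rho_le_iff {ξ η : Cz} {n : ℕ} : rho ξ η ≤ (1 / 2) ^ n ↔ ∀ i < n, ξ i = η i :=
  (PiNat.mem_cylinder_iff_dist_le (E := fun _ => Bool) (x := η) (y := ξ) (n := n)).symm

lemma agree_of_lt {ξ η : Cz} {n : ℕ} (h : rho ξ η < (1 / 2) ^ n) : ∀ i ≤ n, ξ i = η i :=
  fun _ hi => PiNat.apply_eq_of_dist_lt (E := fun _ => Bool) h hi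

lemma isOpen_ball' (ξ : Cz) (n : ℕ) : IsOpen {η : Cz | rho η ξ ≤ (1 / 2) ^ n} := by
  have h := PiNat.isOpen_cylinder (fun _ => Bool) ξ n
  have e : {η : Cz | rho η ξ ≤ (1 / 2) ^ n} = PiNat.cylinder ξ n := by
    ext η
    exact (PiNat.mem_cylinder_iff_dist_le (E := fun _ => Bool) (x := ξ) (y := η) (n := n)).symm
  rw [e]; exact h

/-- Pairs (branch, height). -/
def PP : Type := Cz × unitInterval

/-- The height of the meet. -/
noncomputable def gp (a b : PP) : ℝ := min (min (a.2 : ℝ) b.2) (1 - rho a.1 b.1)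

lemma gp_le_left (a b : PP) : gp a b ≤ a.2 := (min_le_left _ _).trans (min_le_left _ _)
lemma gp_le_right (a b : PP) : gp a b ≤ b.2 := (min_le_left _ _).trans (min_le_right _ _)
lemma gp_comm (a b : PP) : gp a b = gp b a := by
  unfold gp
  rw [min_comm (a.2 : ℝ), rho_comm]
lemma gp_self (a : PP) : gp a a = a.2 := by
  unfold gp
  rw [min_self, rho_self, sub_zero, min_eq_left a.2.2.2]

lemma gp_ultra (a b c : PP) : min (gp a b) (gp b c) ≤ gp a c := by
  unfold gp
  refine le_min (le_min ?_ ?_) ?_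
  · exact (min_le_left _ _).trans ((min_le_left _ _).trans (min_le_left _ _))
  · exact (min_le_right _ _).trans ((min_le_left _ _).trans (min_le_right _ _))
  · have h1 := rho_nonarch a.1 b.1 c.1
    have h2 : min (1 - rho a.1 b.1) (1 - rho b.1 c.1) ≤ 1 - rho a.1 c.1 := by
      rcases le_max_iff.1 h1 with h | h
      · exact (min_le_left _ _).trans (by linarith)
      · exact (min_le_right _ _).trans (by linarith)
    refine le_trans ?_ h2
    exact min_le_min (min_le_right _ _) (min_le_right _ _)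

noncomputable instance : PseudoMetricSpace PP where
  dist a b := a.2 + b.2 - 2 * gp a b
  dist_self a := by
    rw [gp_self]; ring
  dist_comm a b := by
    rw [gp_comm]; ring
  dist_triangle a b c := by
    have h1 := gp_ultra a b c
    have h2 := gp_le_right a b
    have h3 := gp_le_left b c
    rcases le_total (gp a b) (gp b c) with h | h
    · rw [min_eq_left h] at h1; linarith
    · rw [min_eq_right h] at h1; linarith

lemma dist_PP (a b : PP) : dist a b = a.2 + b.2 - 2 * gp a b := rfl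

/-- The tree. -/
abbrev TT : Type := SeparationQuotient PP

/-- The point of height `t` on the branch `ξ`. -/
noncomputable def pt (ξ : Cz) (t : ℝ) : TT :=
  SeparationQuotient.mk ((ξ, projIcc 0 1 zero_le_one t) : PP)

lemma dist_pt (ξ η : Cz) {t u : ℝ} (ht : t ∈ Icc (0 : ℝ) 1) (hu : u ∈ Icc (0 : ℝ) 1) :
    dist (pt ξ t) (pt η u) = t + u - 2 * min (min t u) (1 - rho ξ η) := by
  refine (SeparationQuotient.dist_mk _ _).trans ?_
  change ((projIcc 0 1 zero_le_one t : unitInterval) : ℝ) +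
    ((projIcc 0 1 zero_le_one u : unitInterval) : ℝ) -
    2 * min (min ((projIcc 0 1 zero_le_one t : unitInterval) : ℝ)
      ((projIcc 0 1 zero_le_one u : unitInterval) : ℝ)) (1 - rho ξ η) = _
  rw [projIcc_of_mem zero_le_one ht, projIcc_of_mem zero_le_one hu]

lemma exists_pt (x : TT) : ∃ (ξ : Cz) (t : ℝ), t ∈ Icc (0 : ℝ) 1 ∧ x = pt ξ t := by
  obtain ⟨⟨ξ, t⟩, rfl⟩ := SeparationQuotient.surjective_mk x
  refine ⟨ξ, t, t.2, ?_⟩
  unfold pt
  rw [projIcc_val]

lemma fourPt : FourPt TT := by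
  intro x y z w
  obtain ⟨x, rfl⟩ := SeparationQuotient.surjective_mk x
  obtain ⟨y, rfl⟩ := SeparationQuotient.surjective_mk y
  obtain ⟨z, rfl⟩ := SeparationQuotient.surjective_mk z
  obtain ⟨w, rfl⟩ := SeparationQuotient.surjective_mk w
  simp only [SeparationQuotient.dist_mk, dist_PP]
  have a1 := gp_ultra x z y
  have a2 := gp_ultra x w y
  have a3 := gp_ultra z x w
  have a4 := gp_ultra z y w
  rw [gp_comm z y] at a1
  rw [gp_comm w y] at a2
  rw [gp_comm z x] at a3
  rw [gp_comm z y] at a4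
  rw [le_max_iff]
  by_contra hcon
  push Not at hcon
  obtain ⟨h1, h2⟩ := hcon
  rcases le_total (gp x z) (gp y z) with b1 | b1 <;>
  rcases le_total (gp x w) (gp y w) with b2 | b2 <;>
  rcases le_total (gp x z) (gp x w) with b3 | b3 <;>
  rcases le_total (gp y z) (gp y w) with b4 | b4 <;>
  simp only [min_eq_left, min_eq_right, b1, b2, b3, b4] at a1 a2 a3 a4 <;>
  linarith

/-- The geodesic from `pt ξ t` to `pt η u`. -/
lemma geodesic (x y : TT) : ∃ g : ℝ → TT, g 0 = x ∧ g (dist x y) = y ∧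
    ∀ s ∈ Icc 0 (dist x y), ∀ t ∈ Icc 0 (dist x y), dist (g s) (g t) = |s - t| := by
  obtain ⟨ξ, t, ht, rfl⟩ := exists_pt x
  obtain ⟨η, u, hu, rfl⟩ := exists_pt y
  rw [dist_pt ξ η ht hu]
  set m := min (min t u) (1 - rho ξ η) with hm
  have hmt : m ≤ t := (min_le_left _ _).trans (min_le_left _ _)
  have hmu : m ≤ u := (min_le_left _ _).trans (min_le_right _ _)
  have hmr : m ≤ 1 - rho ξ η := min_le_right _ _
  have hm0 : 0 ≤ m := le_min (le_min ht.1 hu.1) (by linarith [rho_le_one ξ η])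
  -- the meet
  have hmeet : ∀ a b : ℝ, m ≤ a → a ≤ t → m ≤ b → b ≤ u → min (min a b) (1 - rho ξ η) = m := by
    intro a b h1 h2 h3 h4
    refine le_antisymm ?_ (le_min (le_min h1 h3) hmr)
    rw [hm]
    exact min_le_min (min_le_min h2 h4) le_rfl
  have hself : ∀ (ζ : Cz) (a b : ℝ), a ∈ Icc (0 : ℝ) 1 → b ∈ Icc (0 : ℝ) 1 →
      dist (pt ζ a) (pt ζ b) = |a - b| := by
    intro ζ a b ha hb
    rw [dist_pt ζ ζ ha hb, rho_self, sub_zero, min_eq_left ((min_le_left _ _).trans ha.2)]
    rcases le_total a b with h | h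
    · rw [min_eq_left h, abs_of_nonpos (by linarith)]; ring
    · rw [min_eq_right h, abs_of_nonneg (by linarith)]; ring
  refine ⟨fun s => if s ≤ t - m then pt ξ (t - s) else pt η (s - t + 2 * m), ?_, ?_, ?_⟩
  · simp only
    rw [if_pos (by linarith), sub_zero]
  · simp only
    by_cases h : t + u - 2 * m ≤ t - m
    · rw [if_pos h]
      have hum : u = m := by linarith
      have e : t - (t + u - 2 * m) = m := by rw [hum]; ring
      rw [e, ← dist_eq_zero, dist_pt ξ η ⟨hm0, hmt.trans ht.2⟩ hu,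
        hmeet m u le_rfl hmt hmu le_rfl, hum]
      ring
    · rw [if_neg h]
      congr 1
      ring
  · have main : ∀ s ∈ Icc 0 (t + u - 2 * m), ∀ s' ∈ Icc 0 (t + u - 2 * m), s ≤ s' →
        dist (if s ≤ t - m then pt ξ (t - s) else pt η (s - t + 2 * m))
          (if s' ≤ t - m then pt ξ (t - s') else pt η (s' - t + 2 * m)) = s' - s := by
      intro s hs s' hs' hss
      by_cases h1 : s' ≤ t - m
      · have h2 : s ≤ t - m := hss.trans h1
        rw [if_pos h1, if_pos h2, hself ξ _ _ ⟨by linarith, by linarith [hs.1, ht.2]⟩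
          ⟨by linarith, by linarith [hs'.1, ht.2]⟩]
        rw [abs_of_nonneg (by linarith)]; ring
      · rw [if_neg h1]
        push Not at h1
        by_cases h2 : s ≤ t - m
        · rw [if_pos h2, dist_pt ξ η ⟨by linarith, by linarith [hs.1, ht.2]⟩
            ⟨by linarith, by linarith [hs'.2, hu.2]⟩,
            hmeet _ _ (by linarith) (by linarith [hs.1]) (by linarith) (by linarith [hs'.2])]
          ring
        · rw [if_neg h2]
          push Not at h2
          rw [hself η _ _ ⟨by linarith, by linarith [hs.2, hu.2]⟩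
            ⟨by linarith, by linarith [hs'.2, hu.2]⟩, abs_of_nonpos (by linarith)]
          ring
    intro s hs s' hs'
    rcases le_total s s' with h | h
    · simp only
      rw [main s hs s' hs' h, abs_of_nonpos (by linarith)]; ring
    · simp only
      rw [dist_comm, main s' hs' s hs h, abs_of_nonneg (by linarith)]

theorem isRTree_TT : IsRTree TT := isRTree_of fourPt geodesic

lemma dist_pt_le (ξ η : Cz) {t u : ℝ} (ht : t ∈ Icc (0 : ℝ) 1) (hu : u ∈ Icc (0 : ℝ) 1) :
    dist (pt ξ t) (pt η u) ≤ |t - u| + 2 * rho ξ η := by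
  rw [dist_pt ξ η ht hu]
  rcases le_total (min t u) (1 - rho ξ η) with h | h
  · rw [min_eq_left h]
    have := rho_nonneg ξ η
    rcases le_total t u with h' | h'
    · rw [min_eq_left h', abs_of_nonpos (by linarith)]; linarith
    · rw [min_eq_right h', abs_of_nonneg (by linarith)]; linarith
  · rw [min_eq_right h]
    have := abs_nonneg (t - u)
    linarith [ht.2, hu.2]

lemma continuous_mk' : Continuous fun p : Cz × unitInterval => pt p.1 (p.2 : ℝ) := by
  rw [continuous_iff_continuousAt]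
  rintro ⟨ξ, t⟩
  rw [ContinuousAt, Metric.tendsto_nhds]
  intro ε hε
  obtain ⟨n, hn⟩ := exists_pow_lt_of_lt_one (show 0 < ε / 4 by positivity)
    (show (1 / 2 : ℝ) < 1 by norm_num)
  have h1 : {η : Cz | rho η ξ ≤ (1 / 2) ^ n} ∈ 𝓝 ξ :=
    (isOpen_ball' ξ n).mem_nhds (by
      change rho ξ ξ ≤ _
      rw [rho_self]; positivity)
  have h2 : {u : unitInterval | |(u : ℝ) - t| < ε / 2} ∈ 𝓝 t := by
    have h3 : Continuous fun u : unitInterval => |(u : ℝ) - t| := by fun_prop
    refine (isOpen_lt h3 continuous_const).mem_nhds ?_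
    change |(t : ℝ) - t| < ε / 2
    rw [sub_self, abs_zero]; positivity
  filter_upwards [prod_mem_nhds h1 h2] with p hp
  have h3 : rho p.1 ξ ≤ (1 / 2) ^ n := hp.1
  have h4 : |(p.2 : ℝ) - t| < ε / 2 := hp.2
  have h5 := dist_pt_le p.1 ξ p.2.2 t.2
  calc _ ≤ |(p.2 : ℝ) - t| + 2 * rho p.1 ξ := h5
    _ < ε := by linarith

instance compactTT : CompactSpace TT := by
  have h1 : IsCompact (range fun p : Cz × unitInterval => pt p.1 (p.2 : ℝ)) :=
    isCompact_range continuous_mk'
  have h2 : (range fun p : Cz × unitInterval => pt p.1 (p.2 : ℝ)) = univ := by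
    refine eq_univ_of_forall fun x => ?_
    obtain ⟨ξ, t, ht, rfl⟩ := exists_pt x
    exact ⟨(ξ, ⟨t, ht⟩), rfl⟩
  rw [h2] at h1
  exact ⟨h1⟩

lemma continuous_end : Continuous fun ξ : Cz => pt ξ 1 := by
  have h : Continuous fun ξ : Cz => ((ξ, (1 : unitInterval)) : Cz × unitInterval) := by fun_prop
  exact continuous_mk'.comp h

end Q99.RT
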