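import Mathlib
import Pool.Agent.Q99.RT.Space

set_option autoImplicit false

/-!
Lipschitz functions on the dyadic tree, obtained by integration along branches.
-/

namespace Q99.RT

open Set Topology MeasureTheory
open Pool.Agent.H266R3.LF

/-- The base point. -/
noncomputable def oo : TT := pt (fun _ => false) 0

lemma exists_lip (G : Cz → ℝ → ℝ) (K : ℝ) (hK : 0 ≤ K) (h0 : G (fun _ => false) 0 = 0)
    (hG : ∀ ξ η, ∀ t ∈ Icc (0 : ℝ) 1, ∀ u ∈ Icc (0 : ℝ) 1,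
      |G ξ t - G η u| ≤ K * dist (pt ξ t) (pt η u)) :
    ∃ f : Lip0 TT oo, ‖f‖ ≤ K ∧ ∀ ξ, ∀ t ∈ Icc (0 : ℝ) 1, f.fn (pt ξ t) = G ξ t := by
  choose br ht hmem heq using exists_pt
  have h1 : ∀ ξ, ∀ t ∈ Icc (0 : ℝ) 1, G (br (pt ξ t)) (ht (pt ξ t)) = G ξ t := by
    intro ξ t h
    have h2 := hG (br (pt ξ t)) ξ (ht (pt ξ t)) (hmem _) t h
    rw [← heq, dist_self, mul_zero] at h2
    have h3 := abs_nonpos_iff.1 h2
    linarith
  have hL : ∀ x y : TT, |G (br x) (ht x) - G (br y) (ht y)| ≤ K * dist x y := by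
    intro x y
    have h2 := hG (br x) (br y) (ht x) (hmem x) (ht y) (hmem y)
    rwa [← heq, ← heq] at h2
  refine ⟨Lip0.mk (fun x => G (br x) (ht x)) ?_ K hK hL, Lip0.norm_le' _ hK hL, h1⟩
  have := h1 (fun _ => false) 0 ⟨le_rfl, zero_le_one⟩
  rw [h0] at this
  exact this

lemma intervalIntegrable_of_bdd {h : ℝ → ℝ} (hm : Measurable h) (hb : ∀ u, |h u| ≤ 1) (a b : ℝ) :
    IntervalIntegrable h volume a b := by
  constructor <;>
  exact Measure.integrableOn_of_bounded (M := 1) (by simp) hm.aestronglyMeasurable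
      (Filter.Eventually.of_forall fun u => by rw [Real.norm_eq_abs]; exact hb u)

lemma abs_integral_le {h : ℝ → ℝ} (hb : ∀ u, |h u| ≤ 1) {a b : ℝ} (hab : a ≤ b) :
    |∫ u in a..b, h u| ≤ b - a := by
  have h1 := intervalIntegral.norm_integral_le_of_norm_le_const (a := a) (b := b) (C := 1)
    (f := h) (fun u _ => by rw [Real.norm_eq_abs]; exact hb u)
  rw [Real.norm_eq_abs, abs_of_nonneg (by linarith : 0 ≤ b - a), one_mul] at h1
  exact h1

/-- Integration along branches gives Lipschitz functions. -/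
lemma exists_integral (h : Cz → ℝ → ℝ) (hm : ∀ ξ, Measurable (h ξ)) (hb : ∀ ξ u, |h ξ u| ≤ 1)
    (hloc : ∀ ξ η u, 0 < u → u < 1 - rho ξ η → h ξ u = h η u) :
    ∃ f : Lip0 TT oo, ‖f‖ ≤ 1 ∧ ∀ ξ, ∀ t ∈ Icc (0 : ℝ) 1, f.fn (pt ξ t) = ∫ u in (0 : ℝ)..t, h ξ u := by
  refine exists_lip (fun ξ t => ∫ u in (0 : ℝ)..t, h ξ u) 1 zero_le_one (by simp) ?_
  intro ξ η t ht u hu
  rw [dist_pt ξ η ht hu, one_mul]
  set m := min (min t u) (1 - rho ξ η) with hmdef
  have hmt : m ≤ t := (min_le_left _ _).trans (min_le_left _ _)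
  have hmu : m ≤ u := (min_le_left _ _).trans (min_le_right _ _)
  have hmr : m ≤ 1 - rho ξ η := min_le_right _ _
  have hm0 : 0 ≤ m := le_min (le_min ht.1 hu.1) (by linarith [rho_le_one ξ η])
  have e1 : ∫ v in (0 : ℝ)..t, h ξ v = (∫ v in (0 : ℝ)..m, h ξ v) + ∫ v in m..t, h ξ v :=
    (intervalIntegral.integral_add_adjacent_intervals
      (intervalIntegrable_of_bdd (hm ξ) (hb ξ) _ _) (intervalIntegrable_of_bdd (hm ξ) (hb ξ) _ _)).symm
  have e2 : ∫ v in (0 : ℝ)..u, h η v = (∫ v in (0 : ℝ)..m, h η v) + ∫ v in m..u, h η v :=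
    (intervalIntegral.integral_add_adjacent_intervals
      (intervalIntegrable_of_bdd (hm η) (hb η) _ _) (intervalIntegrable_of_bdd (hm η) (hb η) _ _)).symm
  have e3 : ∫ v in (0 : ℝ)..m, h ξ v = ∫ v in (0 : ℝ)..m, h η v :=
    intervalIntegral.integral_congr_Ioo_of_le hm0
      (fun v hv => hloc ξ η v hv.1 (hv.2.trans_le hmr))
  have h1 := abs_integral_le (hb ξ) hmt
  have h2 := abs_integral_le (hb η) hmu
  simp only [e1, e2, e3]
  rw [abs_le] at h1 h2 ⊢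
  constructor <;> linarith [h1.1, h1.2, h2.1, h2.2]

end Q99.RT
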