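import Mathlib
import Pool.Agent.Q99.RT.Funs

set_option autoImplicit false

/-!
The sequence `gam n`.
-/

namespace Q99.RT

open Set Topology MeasureTheory
open Pool.Agent.H266R3.LF

section

variable {T : Type} [MetricSpace T] {o : T}

/-- The functional given by a Lipschitz function. -/
noncomputable def ev (f : Lip0 T o) : FreeSp T o →ₗ[ℝ] ℝ where
  toFun μ := inc T o μ f
  map_add' μ ν := by rw [map_add]; rfl
  map_smul' c μ := by rw [map_smul]; rfl

lemma ev_dl (f : Lip0 T o) (x : T) : ev f (dl o x) = f.fn x := rfl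

lemma abs_ev_le (f : Lip0 T o) (μ : FreeSp T o) : |ev f μ| ≤ ‖f‖ * ‖μ‖ := by
  rw [mul_comm]
  exact (inc T o μ).le_opNorm f

/-- The functional given by a Lipschitz function, as a continuous functional. -/
noncomputable def evL (f : Lip0 T o) : StrongDual ℝ (FreeSp T o) :=
  LinearMap.mkContinuous (ev f) ‖f‖ (fun μ => abs_ev_le f μ)

lemma evL_apply (f : Lip0 T o) (μ : FreeSp T o) : evL f μ = ev f μ := rfl

lemma norm_dl_sub_le (x y : T) : ‖dl o x - dl o y‖ ≤ dist x y := norm_dlt_sub_le x y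

lemma ev_mol (f : Lip0 T o) (x y : T) : ev f (mol o x y) = (dist x y)⁻¹ * (f.fn x - f.fn y) := by
  rw [mol, map_smul, map_sub, ev_dl, ev_dl, smul_eq_mul]

/-- Members of the span of evaluation functionals have finite support. -/
lemma span_supp {μ : FreeSp T o} (hμ : μ ∈ Submodule.span ℝ (Set.range (dl o))) :
    ∃ F : Set T, F.Finite ∧ ∀ f : Lip0 T o, (∀ x ∈ F, f.fn x = 0) → ev f μ = 0 := by
  induction hμ using Submodule.span_induction with
  | mem μ hμ =>
    obtain ⟨x, rfl⟩ := hμ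
    exact ⟨{x}, Set.finite_singleton x, fun f hf => by rw [ev_dl]; exact hf x rfl⟩
  | zero => exact ⟨∅, Set.finite_empty, fun f _ => map_zero _⟩
  | add μ ν _ _ h1 h2 =>
    obtain ⟨F, hF, h1⟩ := h1
    obtain ⟨G, hG, h2⟩ := h2
    refine ⟨F ∪ G, hF.union hG, fun f hf => ?_⟩
    rw [map_add, h1 f fun x hx => hf x (Or.inl hx), h2 f fun x hx => hf x (Or.inr hx), add_zero]
  | smul c μ _ h1 =>
    obtain ⟨F, hF, h1⟩ := h1
    exact ⟨F, hF, fun f hf => by rw [map_smul, h1 f hf, smul_zero]⟩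

lemma dense_span : Dense ((Submodule.span ℝ (Set.range (dl o)) : Submodule ℝ (FreeSp T o)) :
    Set (FreeSp T o)) := by
  intro μ
  have hμ : (inc T o μ) ∈ closure ((Submodule.span ℝ (Set.range (dlt T o)) :
    Submodule ℝ (StrongDual ℝ (Lip0 T o))) : Set _) := μ.2
  rw [Metric.mem_closure_iff] at hμ ⊢
  intro ε hε
  obtain ⟨ν, hν, hd⟩ := hμ ε hε
  have h2 : Submodule.span ℝ (Set.range (dlt T o)) =
      (Submodule.span ℝ (Set.range (dl o))).map (inc T o) := by
    rw [Submodule.map_span, ← Set.range_comp]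
    rfl
  have hν' : ν ∈ Submodule.span ℝ (Set.range (dlt T o)) := hν
  rw [h2] at hν'
  obtain ⟨κ, hκ, rfl⟩ := Submodule.mem_map.1 hν'
  refine ⟨κ, hκ, ?_⟩
  rw [dist_eq_norm] at hd ⊢
  rw [← norm_inc, map_sub]
  exact hd

end

/-- The branch which follows `s`, then turns to `b`, and then to `0` forever. -/
def pS (n : ℕ) (s : Fin n → Bool) (b : Bool) : Cz :=
  fun i => if h : i < n then s ⟨i, h⟩ else if i = n then b else false

lemma pS_lt {n : ℕ} (s : Fin n → Bool) (b : Bool) (i : Fin n) : pS n s b i = s i := by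
  unfold pS
  rw [dif_pos i.2]

lemma pS_self {n : ℕ} (s : Fin n → Bool) (b : Bool) : pS n s b n = b := by
  unfold pS
  rw [dif_neg (lt_irrefl n), if_pos rfl]

lemma pS_gt {n : ℕ} (s : Fin n → Bool) (b : Bool) {i : ℕ} (h : n < i) : pS n s b i = false := by
  unfold pS
  rw [dif_neg (by omega), if_neg (by omega)]

lemma rho_pS (n : ℕ) (s : Fin n → Bool) : rho (pS n s true) (pS n s false) ≤ (1 / 2) ^ n := by
  rw [rho_le_iff]
  intro i hi
  have h1 := pS_lt s true ⟨i, hi⟩
  have h2 := pS_lt s false ⟨i, hi⟩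
  simp only at h1 h2
  rw [h1, h2]

/-- The `n`-th element. -/
noncomputable def gam (n : ℕ) : FreeSp TT oo :=
  ∑ s : Fin n → Bool, (dl oo (pt (pS n s true) 1) - dl oo (pt (pS n s false) 1))

lemma dist_end_le (ξ η : Cz) : dist (pt ξ 1) (pt η 1) ≤ 2 * rho ξ η := by
  have h := dist_pt_le ξ η (t := 1) (u := 1) ⟨zero_le_one, le_rfl⟩ ⟨zero_le_one, le_rfl⟩
  rw [sub_self, abs_zero, zero_add] at h
  exact h

lemma norm_pair_le (n : ℕ) (s : Fin n → Bool) :
    ‖dl oo (pt (pS n s true) 1) - dl oo (pt (pS n s false) 1)‖ ≤ 2 * (1 / 2) ^ n :=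
  (norm_dl_sub_le _ _).trans ((dist_end_le _ _).trans (by linarith [rho_pS n s]))

lemma card_bool (n : ℕ) : (Fintype.card (Fin n → Bool) : ℝ) * (1 / 2) ^ n = 1 := by
  rw [Fintype.card_fun, Fintype.card_bool, Fintype.card_fin]
  push_cast
  rw [← mul_pow]; norm_num

lemma norm_gam_le (n : ℕ) : ‖gam n‖ ≤ 2 := by
  unfold gam
  refine (norm_sum_le _ _).trans ?_
  calc _ ≤ ∑ _s : Fin n → Bool, 2 * (1 / 2 : ℝ) ^ n :=
        Finset.sum_le_sum fun s _ => norm_pair_le n s
    _ = 2 * ((Fintype.card (Fin n → Bool) : ℝ) * (1 / 2) ^ n) := by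
        rw [Finset.sum_const, Finset.card_univ, nsmul_eq_mul]; ring
    _ = 2 := by rw [card_bool]; norm_num

lemma ev_gam (f : Lip0 TT oo) (n : ℕ) : ev f (gam n) =
    ∑ s : Fin n → Bool, (f.fn (pt (pS n s true) 1) - f.fn (pt (pS n s false) 1)) := by
  unfold gam
  rw [map_sum]
  exact Finset.sum_congr rfl fun s _ => by rw [map_sub, ev_dl, ev_dl]

end Q99.RT
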