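import Mathlib
import Pool.Agent.Q99.RT.Gam

set_option autoImplicit false

/-!
The sequence `gam n` satisfies condition (a).
-/

namespace Q99.RT

open Set Topology MeasureTheory Filter
open Pool.Agent.H266R3.LF

/-- The metric segment. -/
def seg (x y : TT) : Set TT := {z | dist x z + dist z y = dist x y}

lemma isClosed_seg (x y : TT) : IsClosed (seg x y) :=
  isClosed_eq (by fun_prop) continuous_const

lemma dist_pt_self (ξ : Cz) {a b : ℝ} (ha : a ∈ Icc (0 : ℝ) 1) (hb : b ∈ Icc (0 : ℝ) 1) :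
    dist (pt ξ a) (pt ξ b) = |a - b| := by
  rw [dist_pt ξ ξ ha hb, rho_self, sub_zero, min_eq_left ((min_le_left _ _).trans ha.2)]
  rcases le_total a b with h | h
  · rw [min_eq_left h, abs_of_nonpos (by linarith)]; ring
  · rw [min_eq_right h, abs_of_nonneg (by linarith)]; ring

lemma pt_proj (ξ : Cz) (t : ℝ) : pt ξ t = pt ξ (projIcc (0 : ℝ) 1 zero_le_one t : unitInterval) := by
  unfold pt
  rw [projIcc_val]

lemma lip_pt (ξ : Cz) : LipschitzWith 1 (pt ξ) := by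
  refine LipschitzWith.of_dist_le_mul fun a b => ?_
  rw [pt_proj ξ a, pt_proj ξ b, dist_pt_self ξ (projIcc _ _ _ a).2 (projIcc _ _ _ b).2,
    NNReal.coe_one, one_mul]
  exact abs_projIcc_sub_projIcc zero_le_one

/-- Data attached to two points. -/
structure PairData (x y : TT) where
  ξ : Cz
  η : Cz
  t : ℝ
  u : ℝ
  m : ℝ
  ht : t ∈ Icc (0 : ℝ) 1
  hu : u ∈ Icc (0 : ℝ) 1
  hx : x = pt ξ t
  hy : y = pt η u
  hm : m = min (min t u) (1 - rho ξ η)

lemma exists_pairData (x y : TT) : Nonempty (PairData x y) := by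
  obtain ⟨ξ, t, ht, hx⟩ := exists_pt x
  obtain ⟨η, u, hu, hy⟩ := exists_pt y
  exact ⟨⟨ξ, η, t, u, _, ht, hu, hx, hy, rfl⟩⟩

namespace PairData

variable {x y : TT} (D : PairData x y)
include D

lemma hmt : D.m ≤ D.t := by rw [D.hm]; exact (min_le_left _ _).trans (min_le_left _ _)
lemma hmu : D.m ≤ D.u := by rw [D.hm]; exact (min_le_left _ _).trans (min_le_right _ _)
lemma hmr : D.m ≤ 1 - rho D.ξ D.η := by rw [D.hm]; exact min_le_right _ _
lemma hm0 : 0 ≤ D.m := by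
  rw [D.hm]
  exact le_min (le_min D.ht.1 D.hu.1) (by linarith [rho_le_one D.ξ D.η])

lemma dx (z : TT) : dist x z = dist (pt D.ξ D.t) z := congrArg (fun w => dist w z) D.hx
lemma dy (z : TT) : dist z y = dist z (pt D.η D.u) := congrArg (fun w => dist z w) D.hy

lemma dist_eq : dist x y = (D.t - D.m) + (D.u - D.m) := by
  have h := dist_pt D.ξ D.η D.ht D.hu
  rw [← D.hm, ← D.dx, ← D.dy] at h
  rw [h]; ring

lemma meet {a b : ℝ} (h1 : D.m ≤ a) (h2 : a ≤ D.t) (h3 : D.m ≤ b) (h4 : b ≤ D.u) :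
    min (min a b) (1 - rho D.ξ D.η) = D.m := by
  refine le_antisymm ?_ (le_min (le_min h1 h3) D.hmr)
  conv_rhs => rw [D.hm]
  exact min_le_min (min_le_min h2 h4) le_rfl

lemma left_seg {v : ℝ} (h1 : D.m ≤ v) (h2 : v ≤ D.t) :
    pt D.ξ v ∈ seg x y ∧ dist x (pt D.ξ v) = D.t - v := by
  have hv : v ∈ Icc (0 : ℝ) 1 := ⟨D.hm0.trans h1, h2.trans D.ht.2⟩
  have e1 : dist x (pt D.ξ v) = D.t - v := by
    rw [D.dx, dist_pt_self _ D.ht hv, abs_of_nonneg (by linarith)]
  have e2 : dist (pt D.ξ v) y = v + D.u - 2 * D.m := by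
    rw [D.dy, dist_pt _ _ hv D.hu, D.meet h1 h2 D.hmu le_rfl]
  refine ⟨?_, e1⟩
  change dist x (pt D.ξ v) + dist (pt D.ξ v) y = dist x y
  rw [e1, e2, D.dist_eq]; ring

lemma right_seg {v : ℝ} (h1 : D.m ≤ v) (h2 : v ≤ D.u) :
    pt D.η v ∈ seg x y ∧ dist x (pt D.η v) = D.t + v - 2 * D.m := by
  have hv : v ∈ Icc (0 : ℝ) 1 := ⟨D.hm0.trans h1, h2.trans D.hu.2⟩
  have e1 : dist (pt D.η v) y = D.u - v := by
    rw [D.dy, dist_pt_self _ hv D.hu, abs_of_nonpos (by linarith)]; ring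
  have e2 : dist x (pt D.η v) = D.t + v - 2 * D.m := by
    rw [D.dx, dist_pt _ _ D.ht hv, D.meet D.hmt le_rfl h1 h2]
  refine ⟨?_, e2⟩
  change dist x (pt D.η v) + dist (pt D.η v) y = dist x y
  rw [e1, e2, D.dist_eq]; ring

lemma of_mem_seg {ζ : Cz} {v : ℝ} (hv : v ∈ Icc (0 : ℝ) 1) (h : pt ζ v ∈ seg x y) :
    (v ∈ Icc D.m D.t ∧ rho D.ξ ζ ≤ 1 - v) ∨ (v ∈ Icc D.m D.u ∧ rho D.η ζ ≤ 1 - v) := by
  have h0 : dist x (pt ζ v) + dist (pt ζ v) y = dist x y := h
  have e1 : dist x (pt ζ v) = D.t + v - 2 * min (min D.t v) (1 - rho D.ξ ζ) := by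
    rw [D.dx, dist_pt _ _ D.ht hv]
  have e2 : dist (pt ζ v) y = v + D.u - 2 * min (min v D.u) (1 - rho ζ D.η) := by
    rw [D.dy, dist_pt _ _ hv D.hu]
  rw [e1, e2, D.dist_eq] at h0
  set p := min (min D.t v) (1 - rho D.ξ ζ) with hp
  set q := min (min v D.u) (1 - rho ζ D.η) with hq
  have hpq : min p q ≤ D.m := by
    rw [D.hm]
    refine le_min (le_min ?_ ?_) ?_
    · exact (min_le_left _ _).trans ((min_le_left _ _).trans (min_le_left _ _))
    · exact (min_le_right _ _).trans ((min_le_left _ _).trans (min_le_right _ _))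
    · have h1 := rho_nonarch D.ξ ζ D.η
      have h2 : min (1 - rho D.ξ ζ) (1 - rho ζ D.η) ≤ 1 - rho D.ξ D.η := by
        rcases le_max_iff.1 h1 with h | h
        · exact (min_le_left _ _).trans (by linarith)
        · exact (min_le_right _ _).trans (by linarith)
      refine le_trans ?_ h2
      exact min_le_min (min_le_right _ _) (min_le_right _ _)
  have hpv : p ≤ v := (min_le_left _ _).trans (min_le_right _ _)
  have hqv : q ≤ v := (min_le_left _ _).trans (min_le_left _ _)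
  have hpt : p ≤ D.t := (min_le_left _ _).trans (min_le_left _ _)
  have hqu : q ≤ D.u := (min_le_left _ _).trans (min_le_right _ _)
  have hpr : p ≤ 1 - rho D.ξ ζ := min_le_right _ _
  have hqr : q ≤ 1 - rho ζ D.η := min_le_right _ _
  rcases le_total p q with h1 | h1
  · rw [min_eq_left h1] at hpq
    right
    refine ⟨⟨by linarith, by linarith⟩, ?_⟩
    rw [rho_comm]; linarith
  · rw [min_eq_right h1] at hpq
    left
    exact ⟨⟨by linarith, by linarith⟩, by linarith⟩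

end PairData

open Classical in
/-- Indicator of the trace of a set on a branch. -/
noncomputable def tr (E : Set TT) (ξ : Cz) (u : ℝ) : ℝ := if pt ξ u ∈ E then 1 else 0

lemma tr_nonneg (E : Set TT) (ξ : Cz) (u : ℝ) : 0 ≤ tr E ξ u := by
  unfold tr; split_ifs <;> norm_num
lemma tr_le_one (E : Set TT) (ξ : Cz) (u : ℝ) : tr E ξ u ≤ 1 := by
  unfold tr; split_ifs <;> norm_num
lemma tr_abs (E : Set TT) (ξ : Cz) (u : ℝ) : |tr E ξ u| ≤ 1 := by
  rw [abs_of_nonneg (tr_nonneg E ξ u)]; exact tr_le_one E ξ u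

lemma tr_measurable {E : Set TT} (hE : IsClosed E) (ξ : Cz) : Measurable (tr E ξ) := by
  classical
  unfold tr
  refine Measurable.ite ?_ measurable_const measurable_const
  exact (hE.preimage (lip_pt ξ).continuous).measurableSet

/-- The integrand. -/
noncomputable def hd (E : Set TT) (f : Lip0 TT oo) (ξ : Cz) (u : ℝ) : ℝ :=
  tr E ξ u * deriv (fun v => f.fn (pt ξ v)) u

lemma lip_branch {f : Lip0 TT oo} (hf : ‖f‖ ≤ 1) (ξ : Cz) :
    LipschitzWith 1 fun v => f.fn (pt ξ v) := by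
  refine LipschitzWith.of_dist_le_mul fun a b => ?_
  rw [Real.dist_eq, NNReal.coe_one, one_mul]
  have h1 := f.abs_sub_le (pt ξ a) (pt ξ b)
  have h2 := (lip_pt ξ).dist_le_mul a b
  rw [NNReal.coe_one, one_mul] at h2
  calc _ ≤ ‖f‖ * dist (pt ξ a) (pt ξ b) := h1
    _ ≤ 1 * dist (pt ξ a) (pt ξ b) := mul_le_mul_of_nonneg_right hf dist_nonneg
    _ ≤ dist a b := by rw [one_mul]; exact h2

lemma hd_le_tr {E : Set TT} {f : Lip0 TT oo} (hf : ‖f‖ ≤ 1) (ξ : Cz) (u : ℝ) :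
    |hd E f ξ u| ≤ tr E ξ u := by
  unfold hd
  rw [abs_mul, abs_of_nonneg (tr_nonneg E ξ u)]
  refine mul_le_of_le_one_right (tr_nonneg E ξ u) ?_
  have := norm_deriv_le_of_lipschitz (x₀ := u) (lip_branch hf ξ)
  simpa using this

lemma hd_bdd {E : Set TT} {f : Lip0 TT oo} (hf : ‖f‖ ≤ 1) (ξ : Cz) (u : ℝ) :
    |hd E f ξ u| ≤ 1 := (hd_le_tr hf ξ u).trans (tr_le_one E ξ u)

lemma hd_measurable {E : Set TT} (hE : IsClosed E) (f : Lip0 TT oo) (ξ : Cz) :
    Measurable (hd E f ξ) := (tr_measurable hE ξ).mul (measurable_deriv _)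

lemma pt_eq {ξ η : Cz} {v : ℝ} (h0 : 0 < v) (h1 : v < 1 - rho ξ η) : pt ξ v = pt η v := by
  have hv : v ∈ Icc (0 : ℝ) 1 := ⟨h0.le, by linarith [rho_nonneg ξ η]⟩
  rw [← dist_eq_zero, dist_pt ξ η hv hv, min_self, min_eq_left h1.le]; ring

lemma hd_loc (E : Set TT) (f : Lip0 TT oo) (ξ η : Cz) (u : ℝ) (h0 : 0 < u)
    (h1 : u < 1 - rho ξ η) : hd E f ξ u = hd E f η u := by
  unfold hd tr
  rw [pt_eq h0 h1]
  congr 1
  refine Filter.EventuallyEq.deriv_eq ?_
  filter_upwards [Ioo_mem_nhds h0 h1] with v hv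
  rw [pt_eq hv.1 hv.2]

lemma split_integral {h : ℝ → ℝ} (hm : Measurable h) (hb : ∀ u, |h u| ≤ 1) (a b c : ℝ) :
    ∫ v in a..c, h v = (∫ v in a..b, h v) + ∫ v in b..c, h v :=
  (intervalIntegral.integral_add_adjacent_intervals
      (intervalIntegrable_of_bdd hm hb _ _) (intervalIntegrable_of_bdd hm hb _ _)).symm

/-- The slope of `g` between two points where `f` has maximal slope. -/
lemma slope {E : Set TT} (hE : IsClosed E) {f g : Lip0 TT oo} (hf : ‖f‖ ≤ 1)
    (hg : ∀ ξ, ∀ t ∈ Icc (0 : ℝ) 1, g.fn (pt ξ t) = ∫ u in (0 : ℝ)..t, hd E f ξ u)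
    (x y : TT) (σ : ℝ) (hσ : σ = 1 ∨ σ = -1) (hfs : f.fn x - f.fn y = σ * dist x y) :
    ∃ c : ℝ, 0 ≤ c ∧ g.fn x - g.fn y = σ * c ∧ (seg x y ⊆ E → c = dist x y) := by
  obtain ⟨D⟩ := exists_pairData x y
  have hσ2 : σ * σ = 1 := by rcases hσ with rfl | rfl <;> norm_num
  -- values of `f` on the segment
  have hz : ∀ z ∈ seg x y, f.fn z = f.fn x - σ * dist x z := by
    intro z hz
    have h0 : dist x z + dist z y = dist x y := hz
    have h1 := f.abs_sub_le x z
    have h2 := f.abs_sub_le z y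
    have h1' : |f.fn x - f.fn z| ≤ dist x z := h1.trans (mul_le_of_le_one_left dist_nonneg hf)
    have h2' : |f.fn z - f.fn y| ≤ dist z y := h2.trans (mul_le_of_le_one_left dist_nonneg hf)
    rw [abs_le] at h1' h2'
    rcases hσ with rfl | rfl
    · linarith [h1'.1, h1'.2, h2'.1, h2'.2]
    · linarith [h1'.1, h1'.2, h2'.1, h2'.2]
  have hL : ∀ v ∈ Icc D.m D.t, f.fn (pt D.ξ v) = f.fn x - σ * (D.t - v) := by
    intro v hv
    have := D.left_seg hv.1 hv.2
    rw [hz _ this.1, this.2]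
  have hR : ∀ v ∈ Icc D.m D.u, f.fn (pt D.η v) = f.fn x - σ * (D.t + v - 2 * D.m) := by
    intro v hv
    have := D.right_seg hv.1 hv.2
    rw [hz _ this.1, this.2]
  have dL : ∀ v ∈ Ioo D.m D.t, deriv (fun v => f.fn (pt D.ξ v)) v = σ := by
    intro v hv
    have : (fun v => f.fn (pt D.ξ v)) =ᶠ[𝓝 v] fun v => f.fn x - σ * (D.t - v) := by
      filter_upwards [Ioo_mem_nhds hv.1 hv.2] with w hw
      exact hL w ⟨hw.1.le, hw.2.le⟩
    rw [this.deriv_eq]
    have h1 : HasDerivAt (fun v : ℝ => f.fn x - σ * (D.t - v)) (-(σ * (0 - 1))) v := by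
      have h2 := (((hasDerivAt_id v).const_sub D.t).const_mul σ).const_sub (f.fn x)
      simpa using h2
    rw [h1.deriv]; ring
  have dR : ∀ v ∈ Ioo D.m D.u, deriv (fun v => f.fn (pt D.η v)) v = -σ := by
    intro v hv
    have : (fun v => f.fn (pt D.η v)) =ᶠ[𝓝 v] fun v => f.fn x - σ * (D.t + v - 2 * D.m) := by
      filter_upwards [Ioo_mem_nhds hv.1 hv.2] with w hw
      exact hR w ⟨hw.1.le, hw.2.le⟩
    rw [this.deriv_eq]
    have h1 : HasDerivAt (fun v : ℝ => f.fn x - σ * (D.t + v - 2 * D.m)) (-(σ * 1)) v := by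
      have h2 := ((((hasDerivAt_id v).const_add D.t).sub_const (2 * D.m)).const_mul σ).const_sub
        (f.fn x)
      simpa using h2
    rw [h1.deriv]; ring
  have iL : ∫ v in D.m..D.t, hd E f D.ξ v = σ * ∫ v in D.m..D.t, tr E D.ξ v := by
    rw [← intervalIntegral.integral_const_mul]
    refine intervalIntegral.integral_congr_Ioo_of_le D.hmt fun v hv => ?_
    change tr E D.ξ v * deriv (fun v => f.fn (pt D.ξ v)) v = _
    rw [dL v hv]; ring
  have iR : ∫ v in D.m..D.u, hd E f D.η v = -σ * ∫ v in D.m..D.u, tr E D.η v := by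
    rw [← intervalIntegral.integral_const_mul]
    refine intervalIntegral.integral_congr_Ioo_of_le D.hmu fun v hv => ?_
    change tr E D.η v * deriv (fun v => f.fn (pt D.η v)) v = _
    rw [dR v hv]; ring
  have i0 : ∫ v in (0 : ℝ)..D.m, hd E f D.ξ v = ∫ v in (0 : ℝ)..D.m, hd E f D.η v :=
    intervalIntegral.integral_congr_Ioo_of_le D.hm0
      (fun v hv => hd_loc E f D.ξ D.η v hv.1 (hv.2.trans_le D.hmr))
  have hgx : g.fn x - g.fn y =
      σ * ((∫ v in D.m..D.t, tr E D.ξ v) + ∫ v in D.m..D.u, tr E D.η v) := by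
    rw [congrArg g.fn D.hx, congrArg g.fn D.hy, hg _ _ D.ht, hg _ _ D.hu,
      split_integral (hd_measurable hE f D.ξ) (hd_bdd hf D.ξ) 0 D.m D.t,
      split_integral (hd_measurable hE f D.η) (hd_bdd hf D.η) 0 D.m D.u, i0, iL, iR]
    ring
  refine ⟨_, ?_, hgx, fun hsub => ?_⟩
  · exact add_nonneg (intervalIntegral.integral_nonneg D.hmt fun v _ => tr_nonneg _ _ _)
      (intervalIntegral.integral_nonneg D.hmu fun v _ => tr_nonneg _ _ _)
  · have e1 : ∫ v in D.m..D.t, tr E D.ξ v = ∫ v in D.m..D.t, (1 : ℝ) :=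
      intervalIntegral.integral_congr_Ioo_of_le D.hmt fun v hv => by
        unfold tr
        rw [if_pos (hsub (D.left_seg hv.1.le hv.2.le).1)]
    have e2 : ∫ v in D.m..D.u, tr E D.η v = ∫ v in D.m..D.u, (1 : ℝ) :=
      intervalIntegral.integral_congr_Ioo_of_le D.hmu fun v hv => by
        unfold tr
        rw [if_pos (hsub (D.right_seg hv.1.le hv.2.le).1)]
    rw [e1, e2, intervalIntegral.integral_const, intervalIntegral.integral_const, D.dist_eq]
    simp

end Q99.RT
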