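import Mathlib
import Pool.Agent.Q99.RT.Cond

set_option autoImplicit false

/-!
The sequence `gam n` satisfies condition (a), second part.
-/

namespace Q99.RT

open Set Topology MeasureTheory Filter
open Pool.Agent.H266R3.LF

/-- The beginning of the `k`-th level. -/
noncomputable def mk' (k : ℕ) : ℝ := 1 - (1 / 2) ^ k

lemma mk'_nonneg (k : ℕ) : 0 ≤ mk' k := by
  have : (1 / 2 : ℝ) ^ k ≤ 1 := pow_le_one₀ (by norm_num) (by norm_num)
  unfold mk'; linarith

lemma mk'_le_one (k : ℕ) : mk' k ≤ 1 := by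
  have : (0 : ℝ) < (1 / 2) ^ k := by positivity
  unfold mk'; linarith

lemma integral_Icc_le {a b c d : ℝ} (hab : a ≤ b) (hcd : c ≤ d) :
    ∫ v in c..d, (Icc a b).indicator (fun _ => (1 : ℝ)) v ≤ b - a := by
  rw [intervalIntegral.integral_of_le hcd, integral_indicator measurableSet_Icc,
    Measure.restrict_restrict measurableSet_Icc, setIntegral_const, smul_eq_mul, mul_one]
  have h1 : volume (Icc a b ∩ Ioc c d) ≤ volume (Icc a b) := measure_mono inter_subset_left
  rw [Real.volume_Icc] at h1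
  rw [Measure.real]
  exact ENNReal.toReal_le_of_le_ofReal (by linarith) h1

/-- The trace of a segment on a branch beyond the `k`-th level. -/
lemma trace_le (x y : TT) (D : PairData x y) (k : ℕ) (ζ : Cz) [Decidable (∀ i < k, D.ξ i = ζ i)]
    [Decidable (∀ i < k, D.η i = ζ i)] :
    ∫ v in (mk' k)..1, tr (seg x y) ζ v ≤
      (if ∀ i < k, D.ξ i = ζ i then D.t - D.m else 0) +
      (if ∀ i < k, D.η i = ζ i then D.u - D.m else 0) := by
  have hI : ∀ a b : ℝ, Measurable ((Icc a b).indicator (fun _ => (1 : ℝ))) := fun a b =>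
    measurable_const.indicator measurableSet_Icc
  have hIb : ∀ a b : ℝ, ∀ v, |(Icc a b).indicator (fun _ => (1 : ℝ)) v| ≤ 1 := by
    intro a b v
    by_cases h : v ∈ Icc a b
    · rw [indicator_of_mem h]; simp
    · rw [indicator_of_notMem h]; simp
  have hIn : ∀ a b : ℝ, ∀ v, 0 ≤ (Icc a b).indicator (fun _ => (1 : ℝ)) v := by
    intro a b v
    by_cases h : v ∈ Icc a b
    · rw [indicator_of_mem h]; norm_num
    · rw [indicator_of_notMem h]
  have hagree : ∀ (ξ : Cz) (v : ℝ), mk' k < v → rho ξ ζ ≤ 1 - v → ∀ i < k, ξ i = ζ i := by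
    intro ξ v hv h
    have h1 : rho ξ ζ ≤ (1 / 2) ^ k := by unfold mk' at hv; linarith
    exact rho_le_iff.1 h1
  set c1 : ℝ := if ∀ i < k, D.ξ i = ζ i then 1 else 0 with hc1
  set c2 : ℝ := if ∀ i < k, D.η i = ζ i then 1 else 0 with hc2
  have hpoint : ∀ v ∈ Ioo (mk' k) 1, tr (seg x y) ζ v ≤
      c1 * (Icc D.m D.t).indicator (fun _ => (1 : ℝ)) v +
      c2 * (Icc D.m D.u).indicator (fun _ => (1 : ℝ)) v := by
    intro v hv
    have hv01 : v ∈ Icc (0 : ℝ) 1 := ⟨(mk'_nonneg k).trans hv.1.le, hv.2.le⟩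
    have hc1n : 0 ≤ c1 := by rw [hc1]; split_ifs <;> norm_num
    have hc2n : 0 ≤ c2 := by rw [hc2]; split_ifs <;> norm_num
    unfold tr
    by_cases h : pt ζ v ∈ seg x y
    · rw [if_pos h]
      rcases D.of_mem_seg hv01 h with ⟨h1, h2⟩ | ⟨h1, h2⟩
      · have h3 := hagree D.ξ v hv.1 h2
        rw [hc1, if_pos h3, indicator_of_mem h1]
        have := mul_nonneg hc2n (hIn D.m D.u v)
        linarith
      · have h3 := hagree D.η v hv.1 h2
        rw [hc2, if_pos h3, indicator_of_mem h1]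
        have := mul_nonneg hc1n (hIn D.m D.t v)
        linarith
    · rw [if_neg h]
      exact add_nonneg (mul_nonneg hc1n (hIn _ _ _)) (mul_nonneg hc2n (hIn _ _ _))
  have i1 := intervalIntegrable_of_bdd (hI D.m D.t) (hIb D.m D.t) (mk' k) 1
  have i2 := intervalIntegrable_of_bdd (hI D.m D.u) (hIb D.m D.u) (mk' k) 1
  have hmono := intervalIntegral.integral_mono_on_of_le_Ioo (mk'_le_one k)
    (intervalIntegrable_of_bdd (tr_measurable (isClosed_seg x y) ζ) (tr_abs _ ζ) _ _)
    ((i1.const_mul c1).add (i2.const_mul c2)) hpoint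
  refine hmono.trans ?_
  rw [intervalIntegral.integral_add (i1.const_mul c1) (i2.const_mul c2),
    intervalIntegral.integral_const_mul, intervalIntegral.integral_const_mul]
  have j1 := integral_Icc_le D.hmt (mk'_le_one k)
  have j2 := integral_Icc_le D.hmu (mk'_le_one k)
  refine add_le_add ?_ ?_
  · rw [hc1]
    split_ifs
    · rw [one_mul]; exact j1
    · rw [zero_mul]
  · rw [hc2]
    split_ifs
    · rw [one_mul]; exact j2
    · rw [zero_mul]

lemma sum_trace_le (x y : TT) (k : ℕ) (b : Bool) :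
    ∑ s : Fin k → Bool, ∫ v in (mk' k)..1, tr (seg x y) (pS k s b) v ≤ dist x y := by
  classical
  obtain ⟨D⟩ := exists_pairData x y
  refine (Finset.sum_le_sum fun s _ => trace_le x y D k (pS k s b)).trans ?_
  rw [Finset.sum_add_distrib, D.dist_eq]
  have key : ∀ (ξ : Cz) (c : ℝ), ∑ s : Fin k → Bool,
      (if ∀ i < k, ξ i = pS k s b i then c else 0) = c := by
    intro ξ c
    rw [Finset.sum_eq_single (fun i : Fin k => ξ i)]
    · rw [if_pos]
      intro i hi
      exact (pS_lt (fun i : Fin k => ξ i) b ⟨i, hi⟩).symm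
    · intro s _ hs
      rw [if_neg]
      intro h
      apply hs
      funext i
      rw [← pS_lt s b i]
      exact (h i i.2).symm
    · intro h
      exact absurd (Finset.mem_univ _) h
  rw [key, key]

/-- Bound for the pairing with `gam k`. -/
lemma ev_gam_le {ι : Type*} (I : Finset ι) (x y : ι → TT) {f g : Lip0 TT oo} (hf : ‖f‖ ≤ 1)
    (hE : IsClosed (⋃ i ∈ I, seg (x i) (y i)))
    (hg : ∀ ξ, ∀ t ∈ Icc (0 : ℝ) 1, g.fn (pt ξ t) =
      ∫ u in (0 : ℝ)..t, hd (⋃ i ∈ I, seg (x i) (y i)) f ξ u) (k : ℕ) :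
    |ev g (gam k)| ≤ 2 * ∑ i ∈ I, dist (x i) (y i) := by
  classical
  set E : Set TT := ⋃ i ∈ I, seg (x i) (y i) with hEdef
  have h1 : ∀ s : Fin k → Bool, g.fn (pt (pS k s true) 1) - g.fn (pt (pS k s false) 1) =
      (∫ v in (mk' k)..1, hd E f (pS k s true) v) - ∫ v in (mk' k)..1, hd E f (pS k s false) v := by
    intro s
    rw [hg _ _ ⟨zero_le_one, le_rfl⟩, hg _ _ ⟨zero_le_one, le_rfl⟩,
      split_integral (hd_measurable hE f (pS k s true)) (hd_bdd hf _) 0 (mk' k) 1,
      split_integral (hd_measurable hE f (pS k s false)) (hd_bdd hf _) 0 (mk' k) 1]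
    have i0 : ∫ v in (0 : ℝ)..(mk' k), hd E f (pS k s true) v =
        ∫ v in (0 : ℝ)..(mk' k), hd E f (pS k s false) v :=
      intervalIntegral.integral_congr_Ioo_of_le (mk'_nonneg k)
        (fun v hv => hd_loc E f _ _ v hv.1 (hv.2.trans_le (by
          have := rho_pS k s
          unfold mk'; linarith)))
    rw [i0]; ring
  have h2 : ∀ (s : Fin k → Bool) (b : Bool), |∫ v in (mk' k)..1, hd E f (pS k s b) v| ≤
      ∑ i ∈ I, ∫ v in (mk' k)..1, tr (seg (x i) (y i)) (pS k s b) v := by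
    intro s b
    rw [← intervalIntegral.integral_finsetSum (fun i _ =>
      intervalIntegrable_of_bdd (tr_measurable (isClosed_seg _ _) _) (tr_abs _ _) _ _)]
    rw [← Real.norm_eq_abs]
    refine intervalIntegral.norm_integral_le_of_norm_le (mk'_le_one k) ?_ ?_
    · refine Filter.Eventually.of_forall fun v _ => ?_
      rw [Real.norm_eq_abs]
      refine (hd_le_tr hf _ _).trans ?_
      by_cases h : pt (pS k s b) v ∈ E
      · rw [hEdef] at h
        simp only [mem_iUnion, exists_prop] at h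
        obtain ⟨i, hi, hmem⟩ := h
        calc tr E (pS k s b) v ≤ 1 := tr_le_one _ _ _
          _ = tr (seg (x i) (y i)) (pS k s b) v := by unfold tr; rw [if_pos hmem]
          _ ≤ _ := Finset.single_le_sum (f := fun i => tr (seg (x i) (y i)) (pS k s b) v)
            (fun i _ => tr_nonneg _ _ _) hi
      · unfold tr
        rw [if_neg h]
        exact Finset.sum_nonneg fun i _ => tr_nonneg (seg (x i) (y i)) (pS k s b) v
    · have h3 := IntervalIntegrable.sum I (f := fun i => tr (seg (x i) (y i)) (pS k s b))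
        (μ := volume) (a := mk' k) (b := 1) (fun i _ => intervalIntegrable_of_bdd
          (tr_measurable (isClosed_seg _ _) _) (tr_abs _ _) _ _)
      have e : (∑ i ∈ I, fun v => tr (seg (x i) (y i)) (pS k s b) v) =
          fun v => ∑ i ∈ I, tr (seg (x i) (y i)) (pS k s b) v := by
        funext v
        rw [Finset.sum_apply]
      rw [← e]
      exact h3
  rw [ev_gam]
  calc |∑ s : Fin k → Bool, (g.fn (pt (pS k s true) 1) - g.fn (pt (pS k s false) 1))|
      ≤ ∑ s : Fin k → Bool, |g.fn (pt (pS k s true) 1) - g.fn (pt (pS k s false) 1)| :=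
        Finset.abs_sum_le_sum_abs _ _
    _ ≤ ∑ s : Fin k → Bool, ((∑ i ∈ I, ∫ v in (mk' k)..1, tr (seg (x i) (y i)) (pS k s true) v) +
          ∑ i ∈ I, ∫ v in (mk' k)..1, tr (seg (x i) (y i)) (pS k s false) v) := by
        refine Finset.sum_le_sum fun s _ => ?_
        rw [h1 s]
        exact (abs_sub _ _).trans (add_le_add (h2 s true) (h2 s false))
    _ = (∑ i ∈ I, ∑ s : Fin k → Bool, ∫ v in (mk' k)..1, tr (seg (x i) (y i)) (pS k s true) v) +
          ∑ i ∈ I, ∑ s : Fin k → Bool, ∫ v in (mk' k)..1, tr (seg (x i) (y i)) (pS k s false) v := by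
        rw [Finset.sum_add_distrib, Finset.sum_comm]
        congr 1
        rw [Finset.sum_comm]
    _ ≤ (∑ i ∈ I, dist (x i) (y i)) + ∑ i ∈ I, dist (x i) (y i) :=
        add_le_add (Finset.sum_le_sum fun i _ => sum_trace_le _ _ _ _)
          (Finset.sum_le_sum fun i _ => sum_trace_le _ _ _ _)
    _ = _ := by ring

/-- The sequence satisfies condition (a). -/
theorem condA : CondA (Set.range gam) := by
  classical
  intro ε hε
  refine ⟨ε / 2, by positivity, fun n a x y hne hnorm I hI => ?_⟩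
  set γ := ∑ i, a i • mol oo (x i) (y i) with hγ
  obtain ⟨Φ, hΦ1, hΦ2⟩ := exists_dual_vector'' ℝ γ
  have hL : ∀ z w : TT, |Φ (dl oo z) - Φ (dl oo w)| ≤ 1 * dist z w := by
    intro z w
    rw [← map_sub, one_mul, ← Real.norm_eq_abs]
    have h1 := Φ.le_of_opNorm_le hΦ1 (dl oo z - dl oo w)
    rw [one_mul] at h1
    exact h1.trans (norm_dl_sub_le z w)
  have h0 : Φ (dl oo oo) = 0 := by
    have : dl oo oo = (0 : FreeSp TT oo) := by
      apply Subtype.ext
      ext f
      exact f.fn_base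
    rw [this, map_zero]
  set f : Lip0 TT oo := Lip0.mk (fun z => Φ (dl oo z)) h0 1 zero_le_one hL with hfdef
  have hf1 : ‖f‖ ≤ 1 := Lip0.norm_le' _ zero_le_one hL
  have hffn : ∀ z, f.fn z = Φ (dl oo z) := fun z => rfl
  -- slopes
  have hd0 : ∀ i, 0 < dist (x i) (y i) := fun i => dist_pos.2 (hne i)
  set q : Fin n → ℝ := fun i => (dist (x i) (y i))⁻¹ * (f.fn (x i) - f.fn (y i)) with hq
  have hq1 : ∀ i, |q i| ≤ 1 := by
    intro i
    rw [hq]
    simp only
    rw [abs_mul, abs_inv, abs_of_pos (hd0 i), inv_mul_le_iff₀ (hd0 i), mul_comm]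
    exact hL _ _
  have hsum : ∑ i, a i * q i = ∑ i, |a i| := by
    rw [← hnorm]
    have : Φ γ = ‖γ‖ := by simpa using hΦ2
    rw [← this, hγ, map_sum]
    refine Finset.sum_congr rfl fun i _ => ?_
    rw [map_smul, mol, map_smul, map_sub, smul_eq_mul, smul_eq_mul]
    rfl
  have haq : ∀ i, a i * q i = |a i| := by
    have h2 : ∀ i ∈ Finset.univ, a i * q i ≤ |a i| := fun i _ =>
      (le_abs_self _).trans (by
        rw [abs_mul]
        exact mul_le_of_le_one_right (abs_nonneg _) (hq1 i))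
    exact fun i => (Finset.sum_eq_sum_iff_of_le h2).1 hsum i (Finset.mem_univ i)
  -- the function `g`
  set E : Set TT := ⋃ i ∈ I, seg (x i) (y i) with hEdef
  have hE : IsClosed E := by
    rw [hEdef]
    exact isClosed_biUnion_finset fun i _ => isClosed_seg _ _
  obtain ⟨g, hg1, hg2⟩ := exists_integral (hd E f) (hd_measurable hE f) (hd_bdd hf1) (hd_loc E f)
  have hgi : ∀ i, 0 ≤ a i * ((dist (x i) (y i))⁻¹ * (g.fn (x i) - g.fn (y i))) ∧
      (i ∈ I → a i * ((dist (x i) (y i))⁻¹ * (g.fn (x i) - g.fn (y i))) = |a i|) := by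
    intro i
    by_cases ha : a i = 0
    · rw [ha]; simp
    · -- the sign
      obtain ⟨σ, hσ, hσq, hσa⟩ : ∃ σ : ℝ, (σ = 1 ∨ σ = -1) ∧ q i = σ ∧ a i * σ = |a i| := by
        have h3 := haq i
        rcases lt_or_gt_of_ne ha with h | h
        · refine ⟨-1, Or.inr rfl, ?_, by rw [abs_of_neg h]; ring⟩
          rw [abs_of_neg h] at h3
          have h4 : a i * (q i + 1) = 0 := by linarith
          rcases mul_eq_zero.1 h4 with h5 | h5
          · exact absurd h5 ha
          · linarith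
        · refine ⟨1, Or.inl rfl, ?_, by rw [abs_of_pos h]; ring⟩
          rw [abs_of_pos h] at h3
          have h4 : a i * (q i - 1) = 0 := by linarith
          rcases mul_eq_zero.1 h4 with h5 | h5
          · exact absurd h5 ha
          · linarith
      have hfs : f.fn (x i) - f.fn (y i) = σ * dist (x i) (y i) := by
        rw [← hσq, hq]
        field_simp [(hd0 i).ne']
      obtain ⟨c, hc0, hc1, hc2⟩ := slope hE hf1 hg2 (x i) (y i) σ hσ hfs
      rw [hc1]
      have e : a i * ((dist (x i) (y i))⁻¹ * (σ * c)) = |a i| * ((dist (x i) (y i))⁻¹ * c) := by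
        rw [← hσa]; ring
      rw [e]
      refine ⟨mul_nonneg (abs_nonneg _) (mul_nonneg (inv_nonneg.2 dist_nonneg) hc0), fun hi => ?_⟩
      rw [hc2 (by rw [hEdef]; exact subset_biUnion_of_mem (u := fun i => seg (x i) (y i)) hi),
        inv_mul_cancel₀ (hd0 i).ne', mul_one]
  have hevg : ∑ i ∈ I, |a i| ≤ ev g γ := by
    rw [hγ, map_sum]
    have h3 : ∀ i, ev g (a i • mol oo (x i) (y i)) =
        a i * ((dist (x i) (y i))⁻¹ * (g.fn (x i) - g.fn (y i))) := by
      intro i
      rw [map_smul, ev_mol, smul_eq_mul]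
    rw [Finset.sum_congr rfl fun i _ => h3 i]
    calc ∑ i ∈ I, |a i| = ∑ i ∈ I, a i * ((dist (x i) (y i))⁻¹ * (g.fn (x i) - g.fn (y i))) :=
          Finset.sum_congr rfl fun i hi => ((hgi i).2 hi).symm
      _ ≤ _ := Finset.sum_le_sum_of_subset_of_nonneg (Finset.subset_univ I) fun i _ _ => (hgi i).1
  have hfinal : ∑ i ∈ I, |a i| - ε ≤ Metric.infDist γ (Set.range gam) := by
    refine (Metric.le_infDist (Set.range_nonempty _)).2 ?_
    rintro _ ⟨k, rfl⟩
    have h3 := ev_gam_le I x y hf1 hE hg2 k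
    have h4 := abs_ev_le g (γ - gam k)
    have h5 : ev g γ = ev g (γ - gam k) + ev g (gam k) := by rw [map_sub]; ring
    rw [dist_eq_norm]
    have h6 : ‖g‖ * ‖γ - gam k‖ ≤ ‖γ - gam k‖ := mul_le_of_le_one_left (norm_nonneg _) hg1
    have h7 := le_abs_self (ev g (γ - gam k))
    have h8 := le_abs_self (ev g (gam k))
    linarith
  linarith

end Q99.RT
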