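import Mathlib
import Pool.Agent.Q99.RT.Gam

set_option autoImplicit false

/-!
The sequence `gam n` is not relatively weakly compact.
-/

namespace Q99.RT

open Set Topology MeasureTheory Filter
open Pool.Agent.H266R3.LF

/-- The `k`-th level. -/
def lev (k : ℕ) : Set ℝ := Ico (1 - (1 / 2) ^ k) (1 - (1 / 2) ^ (k + 1))

lemma measurableSet_lev (k : ℕ) : MeasurableSet (lev k) := measurableSet_Ico

lemma lev_disj {k l : ℕ} {u : ℝ} (hk : u ∈ lev k) (hl : u ∈ lev l) : k = l := by
  by_contra hne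
  rcases lt_or_gt_of_ne hne with h | h
  · have h1 : (1 / 2 : ℝ) ^ l ≤ (1 / 2) ^ (k + 1) :=
      pow_le_pow_of_le_one (by norm_num) (by norm_num) h
    have := hk.2
    have := hl.1
    linarith
  · have h1 : (1 / 2 : ℝ) ^ k ≤ (1 / 2) ^ (l + 1) :=
      pow_le_pow_of_le_one (by norm_num) (by norm_num) h
    have := hk.1
    have := hl.2
    linarith

open Classical in
/-- The integrand. -/
noncomputable def hh (N : ℕ) (B : Set Cz) (ξ : Cz) (u : ℝ) : ℝ :=
  if (∃ k, N ≤ k ∧ u ∈ lev k ∧ ξ k = true) ∧ ∀ ζ ∈ B, ¬ ∀ i < N, ξ i = ζ i then 1 else 0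

lemma hh_measurable (N : ℕ) (B : Set Cz) (ξ : Cz) : Measurable (hh N B ξ) := by
  classical
  unfold hh
  refine Measurable.ite ?_ measurable_const measurable_const
  by_cases h : ∀ ζ ∈ B, ¬ ∀ i < N, ξ i = ζ i
  · have e : {u : ℝ | (∃ k, N ≤ k ∧ u ∈ lev k ∧ ξ k = true) ∧ ∀ ζ ∈ B, ¬ ∀ i < N, ξ i = ζ i} =
        ⋃ k, ⋃ (_ : N ≤ k ∧ ξ k = true), lev k := by
      ext u
      simp only [mem_ofPred_eq, mem_iUnion, exists_prop]
      constructor
      · rintro ⟨⟨k, h1, h2, h3⟩, _⟩
        exact ⟨k, ⟨h1, h3⟩, h2⟩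
      · rintro ⟨k, ⟨h1, h3⟩, h2⟩
        exact ⟨⟨k, h1, h2, h3⟩, h⟩
    rw [e]
    exact MeasurableSet.iUnion fun k => MeasurableSet.iUnion fun _ => measurableSet_Ico
  · have e : {u : ℝ | (∃ k, N ≤ k ∧ u ∈ lev k ∧ ξ k = true) ∧ ∀ ζ ∈ B, ¬ ∀ i < N, ξ i = ζ i} =
        ∅ := by
      ext u
      simp only [mem_ofPred_eq, mem_empty_iff_false, iff_false]
      exact fun h' => h h'.2
    rw [e]
    exact MeasurableSet.empty

lemma hh_bdd (N : ℕ) (B : Set Cz) (ξ : Cz) (u : ℝ) : |hh N B ξ u| ≤ 1 := by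
  unfold hh
  split_ifs <;> simp

lemma hh_loc_imp (N : ℕ) (B : Set Cz) (ξ η : Cz) (u : ℝ) (hu : u < 1 - rho ξ η)
    (h : (∃ k, N ≤ k ∧ u ∈ lev k ∧ ξ k = true) ∧ ∀ ζ ∈ B, ¬ ∀ i < N, ξ i = ζ i) :
    (∃ k, N ≤ k ∧ u ∈ lev k ∧ η k = true) ∧ ∀ ζ ∈ B, ¬ ∀ i < N, η i = ζ i := by
  obtain ⟨⟨k, h1, h2, h3⟩, h4⟩ := h
  have h5 : rho ξ η < (1 / 2) ^ k := by
    have := h2.1
    linarith
  have h6 := agree_of_lt h5
  refine ⟨⟨k, h1, h2, ?_⟩, fun ζ hζ hcon => h4 ζ hζ fun i hi => ?_⟩
  · rw [← h6 k le_rfl]; exact h3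
  · rw [h6 i (by omega)]; exact hcon i hi

lemma hh_loc (N : ℕ) (B : Set Cz) (ξ η : Cz) (u : ℝ) (_ : 0 < u) (hu : u < 1 - rho ξ η) :
    hh N B ξ u = hh N B η u := by
  unfold hh
  have h1 := hh_loc_imp N B ξ η u hu
  have h2 := hh_loc_imp N B η ξ u (by rwa [rho_comm])
  by_cases h : (∃ k, N ≤ k ∧ u ∈ lev k ∧ ξ k = true) ∧ ∀ ζ ∈ B, ¬ ∀ i < N, ξ i = ζ i
  · rw [if_pos h, if_pos (h1 h)]
  · rw [if_neg h, if_neg fun h' => h (h2 h')]

lemma integral_lev (n : ℕ) : ∫ u in (0 : ℝ)..1, (lev n).indicator (fun _ => (1 : ℝ)) u =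
    (1 / 2) ^ (n + 1) := by
  have h1 : (1 / 2 : ℝ) ^ n ≤ 1 := pow_le_one₀ (by norm_num) (by norm_num)
  have h2 : (0 : ℝ) < (1 / 2) ^ (n + 1) := by positivity
  rw [intervalIntegral.integral_of_le zero_le_one, integral_indicator (measurableSet_lev n),
    Measure.restrict_restrict (measurableSet_lev n)]
  have e : (lev n ∩ Ioc 0 1 : Set ℝ) =ᵐ[volume] (lev n : Set ℝ) := by
    have h3 : lev n \ (lev n ∩ Ioc 0 1) ⊆ {0} := by
      intro u hu
      by_contra hne
      apply hu.2
      refine ⟨hu.1, ?_, ?_⟩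
      · have := hu.1.1
        have h4 : (0 : ℝ) ≤ u := by linarith
        exact lt_of_le_of_ne h4 (Ne.symm hne)
      · have := hu.1.2
        linarith
    exact (ae_eq_set.2 ⟨by rw [sdiff_eq_empty.2 inter_subset_left]; exact measure_empty,
      measure_mono_null h3 (measure_singleton 0)⟩)
  rw [Measure.restrict_congr_set e, setIntegral_const]
  unfold lev
  rw [Measure.real, Real.volume_Ico, smul_eq_mul, mul_one,
    ENNReal.toReal_ofReal (by rw [pow_succ]; nlinarith [show (0:ℝ) < (1/2)^n by positivity])]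
  rw [pow_succ]; ring

/-- The test functions. -/
lemma exists_test (F : Set TT) (hF : F.Finite) :
    ∃ f : Lip0 TT oo, ‖f‖ ≤ 1 ∧ (∀ x ∈ F, f.fn x = 0) ∧ ∃ N, ∀ n, N ≤ n → 1 / 4 ≤ ev f (gam n) := by
  classical
  choose br ht hmem heq' using exists_pt
  have heq : ∀ x, pt (br x) (ht x) = x := fun x => (heq' x).symm
  clear heq'
  set B : Finset Cz := hF.toFinset.image br with hB
  obtain ⟨N, hN⟩ : ∃ N : ℕ, (B.card : ℝ) * (1 / 2) ^ N ≤ 1 / 2 := by
    obtain ⟨N, hN⟩ := exists_pow_lt_of_lt_one (show (0 : ℝ) < 1 / (2 * (B.card + 1)) by positivity)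
      (show (1 / 2 : ℝ) < 1 by norm_num)
    refine ⟨N, ?_⟩
    rw [lt_div_iff₀ (by positivity)] at hN
    have : (0 : ℝ) < (1 / 2) ^ N := by positivity
    nlinarith
  obtain ⟨f, hf1, hf2⟩ := exists_integral (hh N B) (hh_measurable N B) (hh_bdd N B)
    (hh_loc N B)
  refine ⟨f, hf1, fun x hx => ?_, N, fun n hn => ?_⟩
  · rw [← heq x, hf2 _ _ (hmem x)]
    have : ∀ u, hh N B (br x) u = 0 := by
      intro u
      unfold hh
      rw [if_neg]
      rintro ⟨_, h⟩
      refine h (br x) ?_ fun i _ => rfl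
      rw [hB]
      simp only [Finset.coe_image, Set.Finite.coe_toFinset]
      exact ⟨x, hx, rfl⟩
    simp [this]
  · rw [ev_gam]
    have h1 : ∀ s : Fin n → Bool, f.fn (pt (pS n s true) 1) - f.fn (pt (pS n s false) 1) =
        if ∀ ζ ∈ B, ¬ ∀ i : Fin n, (i : ℕ) < N → s i = ζ i then (1 / 2 : ℝ) ^ (n + 1) else 0 := by
      intro s
      rw [hf2 _ _ ⟨zero_le_one, le_rfl⟩, hf2 _ _ ⟨zero_le_one, le_rfl⟩,
        ← intervalIntegral.integral_sub
          (intervalIntegrable_of_bdd (hh_measurable N B _) (hh_bdd N B _) _ _)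
          (intervalIntegrable_of_bdd (hh_measurable N B _) (hh_bdd N B _) _ _)]
      have hbad : ∀ b, (∀ ζ ∈ (B : Set Cz), ¬ ∀ i < N, pS n s b i = ζ i) ↔
          ∀ ζ ∈ B, ¬ ∀ i : Fin n, (i : ℕ) < N → s i = ζ i := by
        intro b
        have key : ∀ ζ : Cz, (∀ i < N, pS n s b i = ζ i) ↔ ∀ i : Fin n, (i : ℕ) < N → s i = ζ i := by
          intro ζ
          constructor
          · intro h i hi
            rw [← pS_lt s b i]; exact h i hi
          · intro h i hi
            have := h ⟨i, by omega⟩ hi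
            rw [← pS_lt s b ⟨i, by omega⟩] at this
            exact this
        constructor
        · intro h ζ hζ hc
          exact h ζ hζ ((key ζ).2 hc)
        · intro h ζ hζ hc
          exact h ζ hζ ((key ζ).1 hc)
      by_cases hgood : ∀ ζ ∈ B, ¬ ∀ i : Fin n, (i : ℕ) < N → s i = ζ i
      · rw [if_pos hgood, ← integral_lev]
        refine intervalIntegral.integral_congr fun u _ => ?_
        have h2 : ∀ b, hh N B (pS n s b) u =
            if ∃ k, N ≤ k ∧ u ∈ lev k ∧ pS n s b k = true then 1 else 0 := by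
          intro b
          unfold hh
          by_cases h3 : ∃ k, N ≤ k ∧ u ∈ lev k ∧ pS n s b k = true
          · rw [if_pos h3, if_pos ⟨h3, (hbad b).2 hgood⟩]
          · rw [if_neg h3, if_neg fun h' => h3 h'.1]
        simp only [h2]
        by_cases hu : u ∈ lev n
        · rw [indicator_of_mem hu, if_pos ⟨n, hn, hu, pS_self s true⟩, if_neg, sub_zero]
          rintro ⟨k, _, hk, hk2⟩
          have := lev_disj hk hu
          subst this
          rw [pS_self] at hk2
          exact absurd hk2 (by simp)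
        · rw [indicator_of_notMem hu]
          have h3 : (∃ k, N ≤ k ∧ u ∈ lev k ∧ pS n s true k = true) ↔
              (∃ k, N ≤ k ∧ u ∈ lev k ∧ pS n s false k = true) := by
            have h4 : ∀ k, u ∈ lev k → pS n s true k = pS n s false k := by
              intro k hk
              rcases lt_trichotomy k n with h | h | h
              · have e1 := pS_lt s true ⟨k, h⟩
                have e2 := pS_lt s false ⟨k, h⟩
                simp only at e1 e2
                rw [e1, e2]
              · subst h; exact absurd hk hu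
              · rw [pS_gt s true h, pS_gt s false h]
            constructor
            · rintro ⟨k, a, b, c⟩
              exact ⟨k, a, b, by rw [← h4 k b]; exact c⟩
            · rintro ⟨k, a, b, c⟩
              exact ⟨k, a, b, by rw [h4 k b]; exact c⟩
          by_cases h5 : ∃ k, N ≤ k ∧ u ∈ lev k ∧ pS n s true k = true
          · rw [if_pos h5, if_pos (h3.1 h5), sub_self]
          · rw [if_neg h5, if_neg fun h' => h5 (h3.2 h'), sub_self]
      · rw [if_neg hgood]
        have h2 : ∀ b u, hh N B (pS n s b) u = 0 := by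
          intro b u
          unfold hh
          rw [if_neg]
          rintro ⟨_, h⟩
          exact hgood ((hbad b).1 h)
        simp [h2]
    rw [Finset.sum_congr rfl fun s _ => h1 s, Finset.sum_ite, Finset.sum_const_zero, add_zero,
      Finset.sum_const, nsmul_eq_mul]
    -- count
    have hcount : ∀ ζ : Cz, (((Finset.univ : Finset (Fin n → Bool)).filter
        fun s => ∀ i : Fin n, (i : ℕ) < N → s i = ζ i).card : ℝ) * (1 / 2) ^ n = (1 / 2) ^ N := by
      intro ζ
      have e : ((Finset.univ : Finset (Fin n → Bool)).filter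
          fun s => ∀ i : Fin n, (i : ℕ) < N → s i = ζ i) =
          Fintype.piFinset fun i : Fin n => if (i : ℕ) < N then {ζ i} else Finset.univ := by
        ext s
        simp only [Finset.mem_filter, Finset.mem_univ, true_and, Fintype.mem_piFinset]
        refine forall_congr' fun i => ?_
        by_cases hi : (i : ℕ) < N
        · simp [hi]
        · simp [hi]
      rw [e, Fintype.card_piFinset]
      have e2 : ∀ i : Fin n, (if (i : ℕ) < N then ({ζ i} : Finset Bool) else Finset.univ).card =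
          if (i : ℕ) < N then 1 else 2 := by
        intro i
        split_ifs <;> simp
      rw [Finset.prod_congr rfl fun i _ => e2 i, Fin.prod_univ_eq_prod_range
        (fun i => if i < N then 1 else 2) n]
      obtain ⟨m, rfl⟩ := Nat.exists_eq_add_of_le hn
      rw [Finset.prod_range_add]
      have e3 : ∏ x ∈ Finset.range N, (if x < N then 1 else 2) = 1 :=
        Finset.prod_eq_one fun x hx => if_pos (Finset.mem_range.1 hx)
      have e4 : ∏ x ∈ Finset.range m, (if N + x < N then 1 else 2) = 2 ^ m := by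
        rw [Finset.prod_congr rfl fun x _ => if_neg (by omega)]
        simp
      rw [e3, e4, one_mul, pow_add]
      push_cast
      have : (2 : ℝ) ^ m * (1 / 2) ^ m = 1 := by rw [← mul_pow]; norm_num
      calc _ = (1 / 2 : ℝ) ^ N * ((2 : ℝ) ^ m * (1 / 2) ^ m) := by ring
        _ = _ := by rw [this, mul_one]
    set G := (Finset.univ : Finset (Fin n → Bool)).filter
        fun s => ∀ ζ ∈ B, ¬ ∀ i : Fin n, (i : ℕ) < N → s i = ζ i with hG
    have hcov : (Finset.univ : Finset (Fin n → Bool)) ⊆ G ∪ B.biUnion fun ζ =>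
        (Finset.univ : Finset (Fin n → Bool)).filter
          fun s => ∀ i : Fin n, (i : ℕ) < N → s i = ζ i := by
      intro s _
      rw [Finset.mem_union, Finset.mem_biUnion]
      by_cases h : s ∈ G
      · exact Or.inl h
      · right
        rw [hG, Finset.mem_filter] at h
        push Not at h
        obtain ⟨ζ, hζ, h'⟩ := h (Finset.mem_univ _)
        exact ⟨ζ, hζ, Finset.mem_filter.2 ⟨Finset.mem_univ _, h'⟩⟩
    have hcard : Fintype.card (Fin n → Bool) ≤ G.card + ∑ ζ ∈ B,
        ((Finset.univ : Finset (Fin n → Bool)).filter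
          fun s => ∀ i : Fin n, (i : ℕ) < N → s i = ζ i).card := by
      calc _ = (Finset.univ : Finset (Fin n → Bool)).card := Finset.card_univ.symm
        _ ≤ _ := Finset.card_le_card hcov
        _ ≤ _ := Finset.card_union_le _ _
        _ ≤ _ := Nat.add_le_add_left Finset.card_biUnion_le _
    have hcard' : (Fintype.card (Fin n → Bool) : ℝ) ≤ G.card + ∑ ζ ∈ B,
        (((Finset.univ : Finset (Fin n → Bool)).filter
          fun s => ∀ i : Fin n, (i : ℕ) < N → s i = ζ i).card : ℝ) := by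
      exact_mod_cast hcard
    have hp : (0 : ℝ) < (1 / 2) ^ n := by positivity
    have h3 := mul_le_mul_of_nonneg_right hcard' hp.le
    rw [card_bool, add_mul, Finset.sum_mul, Finset.sum_congr rfl fun ζ _ => hcount ζ,
      Finset.sum_const, nsmul_eq_mul] at h3
    rw [pow_succ]
    linarith

/-- The sequence is not relatively weakly compact. -/
theorem not_relWeaklyCompact : ¬ RelWeaklyCompact (Set.range gam) := by
  intro h
  unfold RelWeaklyCompact at h
  obtain ⟨z, hz, hcl⟩ := h.exists_mapClusterPt_of_frequently (l := atTop)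
    (f := fun n => toWeakSpace ℝ (FreeSp TT oo) (gam n))
    (Filter.Eventually.frequently (Filter.Eventually.of_forall fun n =>
      subset_closure ⟨_, ⟨n, rfl⟩, rfl⟩))
  obtain ⟨μ, rfl⟩ := (toWeakSpace ℝ (FreeSp TT oo)).surjective z
  obtain ⟨ν, hν, hd⟩ := Metric.mem_closure_iff.1 (dense_span (o := oo) μ) (1 / 8) (by norm_num)
  obtain ⟨F, hF, hF2⟩ := span_supp hν
  obtain ⟨f, hf1, hf2, N, hN⟩ := exists_test F hF
  have hcont : Continuous fun w : WeakSpace ℝ (FreeSp TT oo) =>
      evL f ((toWeakSpace ℝ (FreeSp TT oo)).symm w) := WeakBilin.eval_continuous _ (evL f)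
  have h1 : MapClusterPt (evL f μ) atTop fun n => evL f (gam n) := by
    have := hcl.continuousAt_comp (f := fun w : WeakSpace ℝ (FreeSp TT oo) =>
      evL f ((toWeakSpace ℝ (FreeSp TT oo)).symm w)) hcont.continuousAt
    exact this
  have h2 : evL f μ ∈ Ici (1 / 4 : ℝ) := by
    by_contra hcon
    rw [mem_Ici, not_le] at hcon
    have h6 := (mapClusterPt_iff_frequently.1 h1) _ (Iio_mem_nhds hcon)
    obtain ⟨n, hn1, hn2⟩ := (h6.and_eventually (eventually_ge_atTop N)).exists
    have h7 := hN n hn2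
    rw [evL_apply, mem_Iio] at hn1
    linarith
  have h3 : ev f μ = ev f (μ - ν) := by
    rw [map_sub, hF2 f hf2, sub_zero]
  have h4 := abs_ev_le f (μ - ν)
  rw [dist_eq_norm] at hd
  have h5 : ‖f‖ * ‖μ - ν‖ ≤ 1 * (1 / 8) :=
    mul_le_mul hf1 hd.le (norm_nonneg _) zero_le_one
  rw [evL_apply, h3, mem_Ici] at h2
  have := le_abs_self (ev f (μ - ν))
  linarith

end Q99.RT
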