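import Mathlib
import Pool.Agent.Q99.RT.Gam

set_option autoImplicit false

/-!
The sequence `gam n` is uniformly regular.
-/

namespace Q99.RT

open Set Topology MeasureTheory Filter
open Pool.Agent.H266R3.LF
open scoped ENNReal

/-- The fair coin. -/
noncomputable def coin : Measure Bool :=
  (2⁻¹ : ℝ≥0∞) • (Measure.dirac true + Measure.dirac false)

lemma coin_singleton (b : Bool) : coin {b} = 2⁻¹ := by
  unfold coin
  cases b <;> simp

instance : IsProbabilityMeasure coin := by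
  constructor
  unfold coin
  simp [ENNReal.inv_two_add_inv_two]

/-- The coin tossing measure. -/
noncomputable def cm : Measure Cz := Measure.infinitePi fun _ : ℕ => coin

instance : IsProbabilityMeasure cm := by unfold cm; infer_instance

lemma cm_ball (ξ : Cz) (n : ℕ) : cm {η : Cz | rho η ξ ≤ (1 / 2) ^ n} = 2⁻¹ ^ n := by
  have e : {η : Cz | rho η ξ ≤ (1 / 2) ^ n} = Set.pi (Finset.range n) fun i => {ξ i} := by
    ext η
    rw [mem_ofPred_eq, rho_le_iff]
    simp [Set.mem_pi]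
  rw [e]
  unfold cm
  rw [Measure.infinitePi_pi (fun _ : ℕ => coin) (fun i _ => measurableSet_singleton _)]
  simp [coin_singleton]

lemma exists_compact {V : Set Cz} (hV : IsOpen V) {ε : ℝ} (hε : 0 < ε) :
    ∃ K ⊆ V, IsCompact K ∧ cm (V \ K) < ENNReal.ofReal ε :=
  hV.measurableSet.exists_isCompact_sdiff_lt (measure_ne_top _ _) (by simpa using hε)

/-- Counting disjoint balls. -/
lemma card_le {n j : ℕ} (b : Bool) (S : Finset (Fin n → Bool)) (D : Set Cz) {ε : ℝ} (hε : 0 < ε)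
    (hD : cm D < ENNReal.ofReal ε)
    (hS : ∀ s ∈ S, {η : Cz | rho η (pS n s b) ≤ (1 / 2) ^ (n + j)} ⊆ D) :
    (S.card : ℝ) * (1 / 2) ^ (n + j) ≤ ε := by
  have h1 : cm (⋃ s ∈ S, {η : Cz | rho η (pS n s b) ≤ (1 / 2) ^ (n + j)}) =
      ∑ s ∈ S, cm {η : Cz | rho η (pS n s b) ≤ (1 / 2) ^ (n + j)} := by
    refine measure_biUnion_finset ?_ fun s _ => (isOpen_ball' _ _).measurableSet
    intro s _ t _ hst
    refine Set.disjoint_left.2 fun η h1 h2 => hst ?_
    have h3 := rho_le_iff.1 h1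
    have h4 := rho_le_iff.1 h2
    funext i
    rw [← pS_lt s b i, ← pS_lt t b i, ← h3 i (by have := i.2; omega), ← h4 i (by have := i.2; omega)]
  have h2 : ∑ s ∈ S, cm {η : Cz | rho η (pS n s b) ≤ (1 / 2) ^ (n + j)} =
      (S.card : ℝ≥0∞) * 2⁻¹ ^ (n + j) := by
    rw [Finset.sum_congr rfl fun s _ => cm_ball _ _, Finset.sum_const, nsmul_eq_mul]
  have h3 : (S.card : ℝ≥0∞) * 2⁻¹ ^ (n + j) ≤ ENNReal.ofReal ε := by
    rw [← h2, ← h1]
    refine (measure_mono ?_).trans hD.le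
    exact iUnion₂_subset hS
  have h4 : (S.card : ℝ≥0∞) * 2⁻¹ ^ (n + j) = ENNReal.ofReal ((S.card : ℝ) * (1 / 2) ^ (n + j)) := by
    rw [ENNReal.ofReal_mul (by positivity), ENNReal.ofReal_pow (by norm_num),
      ENNReal.ofReal_natCast]
    congr 2
    rw [one_div, ENNReal.ofReal_inv_of_pos (by norm_num)]
    norm_num
  rw [h4] at h3
  exact (ENNReal.ofReal_le_ofReal_iff hε.le).1 h3

lemma dl_mem_freeOn {A : Set TT} {x : TT} (hx : x ∈ A) : dl oo x ∈ freeOn oo A :=
  Submodule.le_topologicalClosure _ (Submodule.subset_span ⟨x, hx, rfl⟩)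

theorem uniformlyRegular : UniformlyRegular (Set.range gam) := by
  classical
  intro U hU ε hε
  set V : Set Cz := (fun ξ => pt ξ 1) ⁻¹' U with hV
  have hVo : IsOpen V := hU.preimage continuous_end
  obtain ⟨j, hj⟩ := exists_pow_lt_of_lt_one (show (0 : ℝ) < ε / 8 by positivity)
    (show (1 / 2 : ℝ) < 1 by norm_num)
  have hj0 : (0 : ℝ) < (1 / 2) ^ j := by positivity
  obtain ⟨K, hKV, hK, hKm⟩ := exists_compact hVo (show (0 : ℝ) < ε * (1 / 2) ^ j / 8 by positivity)
  refine ⟨(fun ξ => pt ξ 1) '' K, hK.image continuous_end, ?_, ?_⟩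
  · rintro _ ⟨ξ, hξ, rfl⟩
    exact hKV hξ
  rintro _ ⟨n, rfl⟩
  -- good indices
  have hgoodmem : ∀ ζ : Cz, ζ ∉ V \ K → dl oo (pt ζ 1) ∈ freeOn oo ((fun ξ => pt ξ 1) '' K ∪ Uᶜ) := by
    intro ζ hζ
    refine dl_mem_freeOn ?_
    by_cases h : ζ ∈ K
    · exact Or.inl ⟨ζ, h, rfl⟩
    · right
      intro hU'
      exact hζ ⟨hU', h⟩
  set good : (Fin n → Bool) → Bool → Prop := fun s b =>
    ∃ ζ : Cz, rho ζ (pS n s b) ≤ (1 / 2) ^ (n + j) ∧ ζ ∉ V \ K with hgood
  set Sg : Finset (Fin n → Bool) := Finset.univ.filter fun s => good s true ∧ good s false with hSg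
  have hexv : ∀ s : Fin n → Bool, ∃ v ∈ freeOn oo ((fun ξ => pt ξ 1) '' K ∪ Uᶜ),
      ‖(dl oo (pt (pS n s true) 1) - dl oo (pt (pS n s false) 1)) - v‖ ≤
        4 * (1 / 2) ^ (n + j) + if s ∈ Sg then 0 else 2 * (1 / 2) ^ n := by
    intro s
    by_cases hs : s ∈ Sg
    · rw [if_pos hs, add_zero]
      obtain ⟨⟨ζ, hζ1, hζ2⟩, ⟨ζ', hζ1', hζ2'⟩⟩ := (Finset.mem_filter.1 hs).2
      refine ⟨dl oo (pt ζ 1) - dl oo (pt ζ' 1), Submodule.sub_mem _ (hgoodmem ζ hζ2)
        (hgoodmem ζ' hζ2'), ?_⟩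
      have e : (dl oo (pt (pS n s true) 1) - dl oo (pt (pS n s false) 1)) -
          (dl oo (pt ζ 1) - dl oo (pt ζ' 1)) =
          (dl oo (pt (pS n s true) 1) - dl oo (pt ζ 1)) -
          (dl oo (pt (pS n s false) 1) - dl oo (pt ζ' 1)) := by abel
      rw [e]
      have a1 := (norm_dl_sub_le (o := oo) (pt (pS n s true) 1) (pt ζ 1)).trans (dist_end_le _ _)
      have a2 := (norm_dl_sub_le (o := oo) (pt (pS n s false) 1) (pt ζ' 1)).trans (dist_end_le _ _)
      rw [rho_comm] at a1 a2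
      refine (norm_sub_le _ _).trans ?_
      linarith
    · rw [if_neg hs]
      refine ⟨0, Submodule.zero_mem _, ?_⟩
      rw [sub_zero]
      refine (norm_pair_le n s).trans ?_
      have : (0 : ℝ) < (1 / 2) ^ (n + j) := by positivity
      linarith
  choose v hv1 hv2 using hexv
  refine ⟨∑ s, v s, Submodule.sum_mem _ fun s _ => hv1 s, ?_⟩
  unfold gam
  rw [← Finset.sum_sub_distrib]
  refine (norm_sum_le _ _).trans ((Finset.sum_le_sum fun s _ => hv2 s).trans ?_)
  rw [Finset.sum_add_distrib, Finset.sum_const, Finset.card_univ, nsmul_eq_mul]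
  have hbad : ∑ s : Fin n → Bool, (if s ∈ Sg then (0 : ℝ) else 2 * (1 / 2) ^ n) =
      ((Finset.univ.filter fun s => s ∉ Sg).card : ℝ) * (2 * (1 / 2) ^ n) := by
    rw [Finset.sum_ite, Finset.sum_const_zero, zero_add, Finset.sum_const, nsmul_eq_mul]
  rw [hbad]
  have hcard1 : ∀ b, (((Finset.univ : Finset (Fin n → Bool)).filter fun s => ¬ good s b).card : ℝ) *
      (1 / 2) ^ (n + j) ≤ ε * (1 / 2) ^ j / 8 := by
    intro b
    refine card_le b _ (V \ K) (by positivity) hKm fun s hs η hη => ?_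
    by_contra hcon
    exact (Finset.mem_filter.1 hs).2 ⟨η, hη, hcon⟩
  have hsub : (Finset.univ.filter fun s => s ∉ Sg) ⊆
      ((Finset.univ : Finset (Fin n → Bool)).filter fun s => ¬ good s true) ∪
      ((Finset.univ : Finset (Fin n → Bool)).filter fun s => ¬ good s false) := by
    intro s hs
    have h1 := (Finset.mem_filter.1 hs).2
    rw [hSg, Finset.mem_filter, not_and] at h1
    have h2 := h1 (Finset.mem_univ _)
    rw [not_and_or] at h2
    rw [Finset.mem_union, Finset.mem_filter, Finset.mem_filter]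
    rcases h2 with h | h
    · exact Or.inl ⟨Finset.mem_univ _, h⟩
    · exact Or.inr ⟨Finset.mem_univ _, h⟩
  have hcard2 : ((Finset.univ.filter fun s => s ∉ Sg).card : ℝ) ≤
      (((Finset.univ : Finset (Fin n → Bool)).filter fun s => ¬ good s true).card : ℝ) +
      (((Finset.univ : Finset (Fin n → Bool)).filter fun s => ¬ good s false).card : ℝ) := by
    exact_mod_cast (Finset.card_le_card hsub).trans (Finset.card_union_le _ _)
  have h1 := hcard1 true
  have h2 := hcard1 false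
  have hn0 : (0 : ℝ) < (1 / 2) ^ n := by positivity
  have h3 : ((Finset.univ.filter fun s => s ∉ Sg).card : ℝ) * (1 / 2) ^ (n + j) ≤
      ε * (1 / 2) ^ j / 4 := by
    have := mul_le_mul_of_nonneg_right hcard2 (show (0 : ℝ) ≤ (1 / 2) ^ (n + j) by positivity)
    rw [add_mul] at this
    linarith
  have h4 : ((Finset.univ.filter fun s => s ∉ Sg).card : ℝ) * (1 / 2) ^ n ≤ ε / 4 := by
    rw [pow_add, ← mul_assoc] at h3
    have h5 : ((Finset.univ.filter fun s => s ∉ Sg).card : ℝ) * (1 / 2) ^ n * (1 / 2) ^ j ≤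
        ε / 4 * (1 / 2) ^ j := by linarith
    exact le_of_mul_le_mul_right h5 hj0
  have h5 : (Fintype.card (Fin n → Bool) : ℝ) * (4 * (1 / 2) ^ (n + j)) = 4 * (1 / 2) ^ j := by
    rw [pow_add]
    calc _ = 4 * ((Fintype.card (Fin n → Bool) : ℝ) * (1 / 2) ^ n) * (1 / 2) ^ j := by ring
      _ = _ := by rw [card_bool]; ring
  rw [h5]
  calc _ = 4 * (1 / 2 : ℝ) ^ j +
        2 * (((Finset.univ.filter fun s => s ∉ Sg).card : ℝ) * (1 / 2) ^ n) := by ring
    _ ≤ 4 * (ε / 8) + 2 * (ε / 4) := by linarith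
    _ = ε := by ring

end Q99.RT
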